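import Pool.Agent.TH309.LA.Torus

/-! Solution curves stay on the tori. -/

set_option autoImplicit false

open Set Filter Topology
open scoped ContDiff

namespace Pool.Agent.TH309.LA

namespace IntSys

variable (I : IntSys)

theorem invariant {z : Ph} {c : ℝ → Ph} (hc : ∀ t, HasDerivAt c (ham I.H (c t)) t)
    (h0 : c 0 ∈ I.orb z) (t : ℝ) : c t ∈ I.orb z := by
  have h1 : ∀ t, I.H (c t) = I.H (c 0) := by
    have hd : ∀ t, HasDerivAt (fun t => I.H (c t)) 0 t := by
      intro t
      have a := (I.hH.differentiable (by simp) (c t)).hasFDerivAt.comp_hasDerivAt t (hc t)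
      rwa [I.dHH] at a
    intro t
    exact is_const_of_deriv_eq_zero (fun t => (hd t).differentiableAt) (fun t => (hd t).deriv) t 0
  have h2 : I.H (c 0) = I.H z := congrArg Prod.fst (I.orb_G h0)
  have h3 : ∀ t, HasDerivAt c ((I.pr (I.H (c 0))).X (c t)) t := by
    intro t
    rw [I.pr_X_eq (by rw [h1 t]; simp)]
    exact hc t
  have h4 := curve_unique (I.pr (I.H (c 0))).lX h3
    (fun t => (I.pr (I.H (c 0))).ph_deriv (c 0) t) ((I.pr (I.H (c 0))).ph_zero (c 0)).symm t
  rw [← I.orb_eq h0]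
  refine ⟨(t, 0), 0, ?_⟩
  rw [vec_zero, add_zero]
  unfold Pair.act
  rw [(I.pr (I.H (c 0))).ps_zero]
  exact h4

end IntSys

end Pool.Agent.TH309.LA
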