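import Pool.Agent.TH309.LA.Met

/-! The set of points with regular level sets is open and dense. -/

set_option autoImplicit false

open Set Filter Topology
open scoped ContDiff

namespace Pool.Agent.TH309.LA

open Pool.Agent.TH309.Tor

namespace IntSys

variable (I : IntSys)

theorem isOpen_reg : IsOpen {z | I.Reg z} := by
  have h1 : IsOpen {f : Fin 2 → (Ph →L[ℝ] ℝ) | LinearIndependent ℝ f} :=
    isOpen_setOfPred_linearIndependent
  have c1 : Continuous (fderiv ℝ I.H) := I.hH.continuous_fderiv (by simp)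
  have c2 : Continuous (fderiv ℝ I.F) := I.hF.continuous_fderiv (by simp)
  have h2 : Continuous fun z => (![fderiv ℝ I.H z, fderiv ℝ I.F z] : Fin 2 → (Ph →L[ℝ] ℝ)) := by
    refine continuous_pi fun i => ?_
    fin_cases i
    · exact c1
    · exact c2
  have h3 := h1.preimage h2
  have e : {z | I.Reg z} = (fun z => (![fderiv ℝ I.H z, fderiv ℝ I.F z] : Fin 2 → (Ph →L[ℝ] ℝ))) ⁻¹'
      {f : Fin 2 → (Ph →L[ℝ] ℝ) | LinearIndependent ℝ f} := by
    ext z
    exact LinearIndependent.pair_iff.symm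
  rw [e]
  exact h3

theorem reg_per (z : Ph) (k : Fin 2 → ℤ) : I.Reg (z + vec k) ↔ I.Reg z := by
  unfold Reg
  rw [fderiv_periodic I.pH, fderiv_periodic I.pF]

theorem isOpen_regLevel : IsOpen I.RegLevel := by
  rw [← isClosed_compl_iff]
  apply IsSeqClosed.isClosed
  intro z z₀ hz hlim
  have hz' : ∀ n, ∃ w, I.H w = I.H (z n) ∧ I.F w = I.F (z n) ∧ ¬ I.Reg w ∧
      ∀ i, 0 ≤ w.1 i ∧ w.1 i ≤ 1 := by
    intro n
    have h := hz n
    simp only [RegLevel, mem_compl_iff, mem_ofPred] at h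
    push Not at h
    obtain ⟨w, h1, h2, h3⟩ := h
    obtain ⟨k, hk⟩ := exists_rep' w
    exact ⟨w + vec k, by rw [I.pH, h1], by rw [I.pF, h2], by rwa [I.reg_per], hk⟩
  choose w w1 w2 w3 w4 using hz'
  have cH : Tendsto (fun n => I.H (z n)) atTop (𝓝 (I.H z₀)) :=
    (I.hH.continuous.tendsto z₀).comp hlim
  have cF : Tendsto (fun n => I.F (z n)) atTop (𝓝 (I.F z₀)) :=
    (I.hF.continuous.tendsto z₀).comp hlim
  obtain ⟨R, hR⟩ := I.proper (I.H z₀ + 1)
  have hev : ∀ᶠ n in atTop, w n ∈ {z : Ph | (∀ i, 0 ≤ z.1 i ∧ z.1 i ≤ 1) ∧ ‖z.2‖ ≤ R} := by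
    filter_upwards [cH.eventually (gt_mem_nhds (show I.H z₀ < I.H z₀ + 1 by linarith))] with n hn
    exact ⟨w4 n, hR _ (by rw [w1]; exact hn.le)⟩
  obtain ⟨w₀, hw₀, φ, hφ, hφl⟩ := (isCompact_box R).tendsto_subseq' hev.frequently
  have hreg : ¬ I.Reg w₀ := by
    have hc : IsClosed {z | ¬ I.Reg z} := by
      have := I.isOpen_reg.isClosed_compl
      exact this
    exact hc.mem_of_tendsto hφl (Eventually.of_forall fun n => w3 (φ n))
  have e1 : I.H w₀ = I.H z₀ := by
    have a1 : Tendsto (fun n => I.H (w (φ n))) atTop (𝓝 (I.H w₀)) :=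
      (I.hH.continuous.tendsto w₀).comp hφl
    have a2 : Tendsto (fun n => I.H (w (φ n))) atTop (𝓝 (I.H z₀)) := by
      have := cH.comp hφ.tendsto_atTop
      refine this.congr fun n => ?_
      simp only [Function.comp_apply]
      rw [w1]
    exact tendsto_nhds_unique a1 a2
  have e2 : I.F w₀ = I.F z₀ := by
    have a1 : Tendsto (fun n => I.F (w (φ n))) atTop (𝓝 (I.F w₀)) :=
      (I.hF.continuous.tendsto w₀).comp hφl
    have a2 : Tendsto (fun n => I.F (w (φ n))) atTop (𝓝 (I.F z₀)) := by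
      have := cF.comp hφ.tendsto_atTop
      refine this.congr fun n => ?_
      simp only [Function.comp_apply]
      rw [w2]
    exact tendsto_nhds_unique a1 a2
  simp only [RegLevel, mem_compl_iff, mem_ofPred]
  intro hcon
  exact hreg (hcon w₀ e1 e2)

end IntSys

theorem ratio_of_level {P : Pack} {hP : Small P} {z : Ph} (hz : z.2 ≠ 0)
    (h : z ∉ (isys P hP).RegLevel) :
    ∃ u s, CritPt P u s ∧ FF P z ^ 2 / HH P z ^ 3 = 27 * val P u s := by
  simp only [IntSys.RegLevel, mem_ofPred] at h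
  push Not at h
  obtain ⟨w, h1, h2, h3⟩ := h
  have e1 : HH P w = HH P z := h1
  have e2 : FF P w = FF P z := h2
  have hw : w.2 ≠ 0 := by
    intro hc
    have a := HH_pos (P := P) hz
    rw [← e1, HH_zero hc] at a
    exact lt_irrefl _ a
  obtain ⟨u, s, h4, h5⟩ := crit_of_not_reg hw h3
  exact ⟨u, s, h4, by rw [← e1, ← e2]; exact h5⟩

/-- the ratio is not constant on an open set of momenta -/
theorem not_const {P : Pack} (hP : Small P) (x p : Fin 2 → ℝ) {r c : ℝ} (hr : 0 < r)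
    (h : ∀ w ∈ Metric.ball p r, FF P (x, w) ^ 2 = c * HH P (x, w) ^ 3) : False := by
  set k : (Fin 2 → ℝ) → ℝ := fun w => FF P (x, w) ^ 2 - c * HH P (x, w) ^ 3 with hk
  have hA : AnalyticOnNhd ℝ k univ := by
    intro w _
    have h0 : AnalyticAt ℝ (fun w : Fin 2 → ℝ => w 0) w :=
      (ContinuousLinearMap.proj (R := ℝ) (φ := fun _ : Fin 2 => ℝ) 0).analyticAt w
    have h1 : AnalyticAt ℝ (fun w : Fin 2 → ℝ => w 1) w :=
      (ContinuousLinearMap.proj (R := ℝ) (φ := fun _ : Fin 2 => ℝ) 1).analyticAt w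
    have hT : AnalyticAt ℝ (fun w : Fin 2 → ℝ => w 0 ^ 2 - w 0 * w 1 + w 1 ^ 2) w :=
      ((h0.fun_pow 2).fun_sub (h0.fun_mul h1)).fun_add (h1.fun_pow 2)
    have hF : AnalyticAt ℝ (fun w : Fin 2 → ℝ => w 0 * w 1 * (w 0 - w 1) +
        (w 0 ^ 2 - w 0 * w 1 + w 1 ^ 2) * (V2 P.A x * w 0 + V2 P.B x * w 1)) w :=
      ((h0.fun_mul h1).fun_mul (h0.fun_sub h1)).fun_add
        (hT.fun_mul ((analyticAt_const.fun_mul h0).fun_add (analyticAt_const.fun_mul h1)))
    simp only [hk, FF, HH, qF, qT]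
    exact (hF.fun_pow 2).fun_sub
      (analyticAt_const.fun_mul ((analyticAt_const.fun_mul hT).fun_pow 3))
  have hz : ∀ w, k w = 0 := by
    intro w
    have h1 : k =ᶠ[𝓝 p] 0 := by
      filter_upwards [Metric.ball_mem_nhds p hr] with w hw
      simp only [hk, Pi.zero_apply]
      rw [h w hw, sub_self]
    have h2 := hA.eqOn_zero_of_preconnected_of_eventuallyEq_zero isPreconnected_univ
      (mem_univ p) h1
    exact h2 (mem_univ w)
  have h1 := hz ![1, 0]
  have h2 := hz ![1, -1]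
  obtain ⟨a1, a2, a3⟩ := hP (U x)
  have eS : V2 P.S x = P.S (U x) := rfl
  have eA : V2 P.A x = P.A (U x) := rfl
  have eB : V2 P.B x = P.B (U x) := rfl
  have hS := P.S_pos (U x)
  simp only [hk, FF, HH, qF, qT, eS, eA, eB] at h1 h2
  simp at h1 h2
  have b2 := abs_le.1 a2
  have b3 := abs_le.1 a3
  have e1 : c * (P.S (U x) / 3) ^ 3 = P.A (U x) ^ 2 := by linarith
  have e2 : (-(1 + 1) + (1 + 1 + 1) * (P.A (U x) - P.B (U x))) ^ 2 = 27 * P.A (U x) ^ 2 := by
    rw [← e1]
    linear_combination h2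
  nlinarith [sq_nonneg (P.A (U x))]

/-- **density** -/
theorem dense_regLevel {P : Pack} (hP : Small P) : Dense (isys P hP).RegLevel := by
  rw [dense_iff_inter_open]
  intro O hO hne
  by_contra hcon
  rw [not_nonempty_iff_eq_empty, ← disjoint_iff_inter_eq_empty] at hcon
  -- a point of `O` with nonzero momentum
  obtain ⟨z, hz, hz2⟩ : ∃ z ∈ O, z.2 ≠ 0 := by
    obtain ⟨z, hz⟩ := hne
    obtain ⟨ε, hε, hsub⟩ := Metric.isOpen_iff.1 hO z hz
    by_cases h : z.2 = 0
    · refine ⟨(z.1, fun _ => ε / 2), hsub ?_, ?_⟩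
      · rw [Metric.mem_ball, Prod.dist_eq, h]
        simp only [dist_self]
        refine max_lt hε ?_
        rw [dist_eq_norm, sub_zero]
        rw [pi_norm_lt_iff hε]
        intro i
        rw [Real.norm_eq_abs, abs_of_pos (by positivity)]
        linarith
      · intro hc
        have := congrFun hc 0
        simp at this
        linarith
    · exact ⟨z, hz, h⟩
  obtain ⟨ε, hε, hsub⟩ := Metric.isOpen_iff.1 hO z hz
  have hnp : 0 < ‖z.2‖ := norm_pos_iff.2 hz2
  set r := min ε (‖z.2‖ / 2) with hr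
  have hrp : 0 < r := lt_min hε (by positivity)
  have hB : ∀ w ∈ Metric.ball z.2 r, ((z.1, w) : Ph) ∈ O ∧ w ≠ 0 := by
    intro w hw
    rw [Metric.mem_ball] at hw
    refine ⟨hsub ?_, ?_⟩
    · rw [Metric.mem_ball, Prod.dist_eq]
      simp only [dist_self]
      exact max_lt hε (hw.trans_le (min_le_left _ _))
    · rintro rfl
      rw [dist_comm, dist_zero_right] at hw
      have := hw.trans_le (min_le_right _ _)
      linarith
  -- the ratio
  set κ : (Fin 2 → ℝ) → ℝ := fun w => FF P (z.1, w) ^ 2 / HH P (z.1, w) ^ 3 with hκ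
  have hκc : ContinuousOn κ (Metric.ball z.2 r) := by
    refine ContinuousOn.div ?_ ?_ fun w hw => ?_
    · exact (((contDiff_FF P).continuous.comp (by fun_prop :
        Continuous fun w : Fin 2 → ℝ => ((z.1, w) : Ph))).pow 2).continuousOn
    · exact (((contDiff_HH P).continuous.comp (by fun_prop :
        Continuous fun w : Fin 2 → ℝ => ((z.1, w) : Ph))).pow 3).continuousOn
    · exact (pow_pos (HH_pos (P := P) (z := (z.1, w)) (hB w hw).2) 3).ne'
  have hκv : ∀ w ∈ Metric.ball z.2 r, ∃ u s, CritPt P u s ∧ κ w = 27 * val P u s := by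
    intro w hw
    have h1 : ((z.1, w) : Ph) ∉ (isys P hP).RegLevel := fun h =>
      (disjoint_left.1 hcon) (hB w hw).1 h
    exact ratio_of_level (hB w hw).2 h1
  -- the ratio is constant
  have hconst : ∀ w ∈ Metric.ball z.2 r, κ w = κ z.2 := by
    have hpre : IsPreconnected (κ '' Metric.ball z.2 r) :=
      (convex_ball z.2 r).isPreconnected.image κ hκc
    have hno : ∀ a ∈ κ '' Metric.ball z.2 r, ∀ b ∈ κ '' Metric.ball z.2 r, ¬ a < b := by
      intro a ha b hb hab
      have hI : Icc a b ⊆ κ '' Metric.ball z.2 r := hpre.Icc_subset ha hb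
      obtain ⟨c, hc, hc2⟩ := exists_noncrit P hP (U := Ioo (a / 27) (b / 27)) isOpen_Ioo
        (nonempty_Ioo.2 (by linarith))
      obtain ⟨w, hw, hwc⟩ := hI (show 27 * c ∈ Icc a b from
        ⟨by linarith [hc.1], by linarith [hc.2]⟩)
      obtain ⟨u, s, h1, h2⟩ := hκv w hw
      refine hc2 u s h1 ?_
      rw [hwc] at h2
      linarith
    intro w hw
    have h1 : κ w ∈ κ '' Metric.ball z.2 r := mem_image_of_mem _ hw
    have h2 : κ z.2 ∈ κ '' Metric.ball z.2 r := mem_image_of_mem _ (Metric.mem_ball_self hrp)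
    exact le_antisymm (not_lt.1 (hno _ h2 _ h1)) (not_lt.1 (hno _ h1 _ h2))
  refine not_const hP z.1 z.2 (c := κ z.2) hrp fun w hw => ?_
  rw [← hconst w hw]
  have h3 := HH_pos (P := P) (z := (z.1, w)) (hB w hw).2
  simp only [hκ]
  field_simp

end Pool.Agent.TH309.LA
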