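import Pool.Agent.TH309.LA.Dens

/-! The set of critical values has small dimension. -/

set_option autoImplicit false

open Set Filter Topology
open scoped ContDiff

namespace Pool.Agent.TH309.LA

open Pool.Agent.TH309.Tor

/-- fibrewise critical direction which is also critical in the base directions -/
def CritPt (P : Pack) (u : ℝ × ℝ) (s : ℝ) : Prop :=
  Crit (P.A u) (P.B u) 1 s ∧ ∀ v, 2 * P.S u * qT 1 s * (fderiv ℝ P.A u v + s * fderiv ℝ P.B u v) =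
    3 * qF (P.A u) (P.B u) 1 s * fderiv ℝ P.S u v

noncomputable def val (P : Pack) (u : ℝ × ℝ) (s : ℝ) : ℝ :=
  qF (P.A u) (P.B u) 1 s ^ 2 / qT 1 s ^ 3 / P.S u ^ 3

def Small (P : Pack) : Prop := ∀ u, |P.S u - 1| ≤ 1 / 100 ∧ |P.A u| ≤ 1 / 100 ∧ |P.B u| ≤ 1 / 100

theorem qT_one_pos (s : ℝ) : 0 < qT 1 s := qT_pos (Or.inl one_ne_zero)

theorem fderiv_g {P : Pack} {Ψ : ℝ × ℝ → ℝ} (hΨ : Differentiable ℝ Ψ) {u : ℝ × ℝ}
    (h : CritPt P u (Ψ u)) (hg : Differentiable ℝ fun u => val P u (Ψ u)) :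
    fderiv ℝ (fun u => val P u (Ψ u)) u = 0 := by
  obtain ⟨hc, hx⟩ := h
  refine ContinuousLinearMap.ext fun v => ?_
  have dA : Differentiable ℝ P.A := P.contDiff_A.differentiable (by simp)
  have dB : Differentiable ℝ P.B := P.contDiff_B.differentiable (by simp)
  have dS : Differentiable ℝ P.S := P.contDiff_S.differentiable (by simp)
  have e0 : u + (0 : ℝ) • v = u := by simp
  have lA := hasDerivAt_line (dA u) v
  have lB := hasDerivAt_line (dB u) v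
  have lS := hasDerivAt_line (dS u) v
  have lΨ := hasDerivAt_line (hΨ u) v
  have lg := hasDerivAt_line (hg u) v
  have hS := P.S_pos u
  have hT := qT_one_pos (Ψ u)
  have k1 := crit_deriv (A := fun t : ℝ => P.A (u + t • v)) (B := fun t : ℝ => P.B (u + t • v))
    (p := fun _ => 1) (q := fun t : ℝ => Ψ (u + t • v)) (t := 0) lA lB (hasDerivAt_const _ _) lΨ
    (by rw [e0]; exact hc) (by rw [e0]; exact hT)
  simp only [e0] at k1
  have k2 := lS.fun_pow 3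
  have k3 := k1.fun_div k2 (by rw [e0]; positivity)
  have k4 : HasDerivAt (fun t : ℝ => val P (u + t • v) (Ψ (u + t • v))) _ 0 := k3
  have k5 := lg.unique k4
  rw [k5]
  simp only [e0]
  have hxv := hx v
  rw [zero_apply, div_eq_zero_iff]
  left
  set F := qF (P.A u) (P.B u) 1 (Ψ u)
  set T := qT 1 (Ψ u)
  set σ := P.S u
  field_simp
  push_cast
  linear_combination (F * σ ^ 2) * hxv

def critF (A B s : ℝ) : ℝ := qT 1 s * (A * (2 * s - 1) - B * (2 - s)) -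
  (1 + s) * (2 - s) * (1 - 2 * s)

theorem crit_iff (A B s : ℝ) : Crit A B 1 s ↔ critF A B s = 0 := by
  unfold Crit critF
  rw [mul_one]

theorem contDiff_w (P : Pack) :
    ContDiff ℝ ∞ fun q : (ℝ × ℝ) × ℝ => critF (P.A q.1) (P.B q.1) q.2 := by
  have hA : ContDiff ℝ ∞ fun q : (ℝ × ℝ) × ℝ => P.A q.1 := P.contDiff_A.comp contDiff_fst
  have hB : ContDiff ℝ ∞ fun q : (ℝ × ℝ) × ℝ => P.B q.1 := P.contDiff_B.comp contDiff_fst
  unfold critF qT
  fun_prop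

theorem w_deriv (P : Pack) (q : (ℝ × ℝ) × ℝ) :
    fderiv ℝ (fun q : (ℝ × ℝ) × ℝ => critF (P.A q.1) (P.B q.1) q.2) q (0, 1) =
      (2 * q.2 - 1) * (P.A q.1 * (2 * q.2 - 1) - P.B q.1 * (2 - q.2)) +
        qT 1 q.2 * (2 * P.A q.1 + P.B q.1) - (6 * q.2 ^ 2 - 6 * q.2 - 3) := by
  have h1 : HasDerivAt (fun t : ℝ => ((q.1, t) : (ℝ × ℝ) × ℝ)) ((0 : ℝ × ℝ), (1 : ℝ)) q.2 :=
    (hasDerivAt_const q.2 q.1).prodMk (hasDerivAt_id q.2)
  have h2 : HasFDerivAt (fun q : (ℝ × ℝ) × ℝ => critF (P.A q.1) (P.B q.1) q.2)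
      (fderiv ℝ (fun q : (ℝ × ℝ) × ℝ => critF (P.A q.1) (P.B q.1) q.2) q) (q.1, q.2) :=
    ((contDiff_w P).differentiable (by simp) q).hasFDerivAt
  have h3 := HasFDerivAt.comp_hasDerivAt
    (l := fun q : (ℝ × ℝ) × ℝ => critF (P.A q.1) (P.B q.1) q.2)
    (f := fun t : ℝ => ((q.1, t) : (ℝ × ℝ) × ℝ)) q.2 h2 h1
  have i : HasDerivAt (fun t : ℝ => t) 1 q.2 := hasDerivAt_id' q.2
  have k1 : HasDerivAt (fun t : ℝ => qT 1 t) (2 * q.2 - 1) q.2 := by
    unfold qT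
    refine (((hasDerivAt_const q.2 ((1 : ℝ) ^ 2)).fun_sub (i.const_mul 1)).fun_add
      (i.fun_pow 2)).congr_deriv ?_
    push_cast; ring
  have k2 : HasDerivAt (fun t : ℝ => P.A q.1 * (2 * t - 1) - P.B q.1 * (2 - t))
      (P.A q.1 * 2 + P.B q.1) q.2 := by
    refine ((((i.const_mul 2).sub_const 1).const_mul (P.A q.1)).fun_sub
      ((i.const_sub 2).const_mul (P.B q.1))).congr_deriv ?_
    ring
  have k3 : HasDerivAt (fun t : ℝ => (1 + t) * (2 - t) * (1 - 2 * t))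
      (6 * q.2 ^ 2 - 6 * q.2 - 3) q.2 := by
    refine (((i.const_add 1).fun_mul (i.const_sub 2)).fun_mul
      ((i.const_mul 2).const_sub 1)).congr_deriv ?_
    ring
  have k4 : HasDerivAt (fun t : ℝ => critF (P.A q.1) (P.B q.1) t)
      ((2 * q.2 - 1) * (P.A q.1 * (2 * q.2 - 1) - P.B q.1 * (2 - q.2)) +
        qT 1 q.2 * (P.A q.1 * 2 + P.B q.1) - (6 * q.2 ^ 2 - 6 * q.2 - 3)) q.2 :=
    (k1.fun_mul k2).fun_sub k3
  have k5 := h3.unique k4
  rw [k5]
  ring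

theorem contDiff_val (P : Pack) {Ψ : ℝ × ℝ → ℝ} {n : WithTop ℕ∞} (hn : n ≤ ∞)
    (hΨ : ContDiff ℝ n Ψ) : ContDiff ℝ n fun u => val P u (Ψ u) := by
  have hA : ContDiff ℝ n P.A := P.contDiff_A.of_le hn
  have hB : ContDiff ℝ n P.B := P.contDiff_B.of_le hn
  have hS : ContDiff ℝ n P.S := P.contDiff_S.of_le hn
  unfold val
  refine ContDiff.div (ContDiff.div ?_ ?_ fun u => ?_) (hS.pow 3) fun u => ?_
  · unfold qF qT
    fun_prop
  · unfold qT
    fun_prop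
  · exact (pow_pos (qT_one_pos _) 3).ne'
  · exact (pow_pos (P.S_pos u) 3).ne'

/-- the critical values have dimension at most `2/3` -/
theorem dim_crit (P : Pack) (hP : Small P) :
    dimH ((fun q : (ℝ × ℝ) × ℝ => val P q.1 q.2) '' {q | CritPt P q.1 q.2}) ≤
      ENNReal.ofReal (2 / 3) := by
  refine Pool.Agent.H664.Sard.dimH_image_le_of_local fun q0 hq0 => ?_
  have hc0 : critF (P.A q0.1) (P.B q0.1) q0.2 = 0 := (crit_iff _ _ _).1 hq0.1
  have hd0 : fderiv ℝ (fun q : (ℝ × ℝ) × ℝ => critF (P.A q.1) (P.B q.1) q.2) q0 (0, 1) ≠ 0 := by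
    rw [w_deriv]
    intro h
    exact nondeg (hP q0.1).2.1 (hP q0.1).2.2 hq0.1 h
  obtain ⟨Ψ, hΨ, hev⟩ := exists_graph3 ((contDiff_w P).of_le (by norm_cast)) hc0 hd0
  have hcb : ∀ᶠ q : (ℝ × ℝ) × ℝ in 𝓝 q0, q.1 ∈ Metric.closedBall q0.1 1 :=
    continuous_fst.continuousAt.eventually (Metric.closedBall_mem_nhds q0.1 one_pos)
  refine ⟨_, hev.and hcb, ?_⟩
  have hgC : ContDiff ℝ 3 fun u => val P u (Ψ u) := contDiff_val P (by norm_cast) hΨ
  refine (dimH_mono ?_).trans (sard2 hgC (isCompact_closedBall q0.1 1) (convex_closedBall q0.1 1)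
    (A := {u | u ∈ Metric.closedBall q0.1 1 ∧ fderiv ℝ (fun u => val P u (Ψ u)) u = 0})
    (fun u hu => hu.1) (fun u hu => hu.2))
  rintro _ ⟨q, ⟨hq1, hq2, hq3⟩, rfl⟩
  have e : q.2 = Ψ q.1 := hq2 ((crit_iff _ _ _).1 hq1.1)
  refine ⟨q.1, ⟨hq3, ?_⟩, ?_⟩
  · have hq1' : CritPt P q.1 (Ψ q.1) := by rw [← e]; exact hq1
    exact fderiv_g (hΨ.differentiable (by norm_num)) hq1' (hgC.differentiable (by norm_num))
  · simp only
    rw [← e]

/-- the critical values have empty interior: every nondegenerate interval contains others -/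
theorem exists_noncrit (P : Pack) (hP : Small P) {U : Set ℝ} (hU : IsOpen U) (hne : U.Nonempty) :
    ∃ c ∈ U, ∀ u s, CritPt P u s → val P u s ≠ c := by
  by_contra hcon
  push Not at hcon
  have hsub : U ⊆ (fun q : (ℝ × ℝ) × ℝ => val P q.1 q.2) '' {q | CritPt P q.1 q.2} := by
    intro c hc
    obtain ⟨u, s, h1, h2⟩ := hcon c hc
    exact ⟨(u, s), h1, h2⟩
  obtain ⟨c, hc⟩ := hne
  have h1 : dimH U = 1 := by
    have := Real.dimH_of_nonempty_interior (s := U) ⟨c, by rwa [hU.interior_eq]⟩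
    simpa using this
  have h2 := (dimH_mono hsub).trans (dim_crit P hP)
  rw [h1] at h2
  have h3 : ENNReal.ofReal (2 / 3) < 1 := by
    rw [ENNReal.ofReal_lt_one]; norm_num
  exact absurd (h2.trans_lt h3) (lt_irrefl _)

end Pool.Agent.TH309.LA
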