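import Pool.Agent.TH309.Tor.Sm
import Pool.Agent.H664.Sard

/-! The critical values of the normalised cubic integral have empty interior. -/

set_option autoImplicit false

open Set Filter Topology
open scoped ContDiff

namespace Pool.Agent.TH309.LA

open Pool.Agent.TH309.Tor

theorem exists_ext {E F : Type} [NormedAddCommGroup E] [NormedSpace ℝ E] [HasContDiffBump E]
    [NormedAddCommGroup F] [NormedSpace ℝ F] {k : ℕ}
    {ψ : E → F} {x : E} (h : ContDiffAt ℝ k ψ x) :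
    ∃ Ψ : E → F, ContDiff ℝ k Ψ ∧ Ψ =ᶠ[𝓝 x] ψ := by
  have h1 := h.eventually (by simp)
  obtain ⟨r, hr, h2⟩ := Metric.eventually_nhds_iff_ball.1 h1
  let b : ContDiffBump x := ⟨r / 4, r / 2, by positivity, by linarith⟩
  refine ⟨fun y => b y • ψ y, ?_, ?_⟩
  · rw [contDiff_iff_contDiffAt]
    intro y
    by_cases hy : y ∈ Metric.ball x r
    · exact (b.contDiff (n := k)).contDiffAt.smul (h2 y hy)
    · have h3 : ∀ᶠ z in 𝓝 y, z ∉ Metric.closedBall x (r / 2) := by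
        apply (Metric.isClosed_closedBall.isOpen_compl).mem_nhds
        intro hz
        apply hy
        rw [Metric.mem_ball]
        rw [Metric.mem_closedBall] at hz
        linarith
      have h4 : (fun y => b y • ψ y) =ᶠ[𝓝 y] fun _ => 0 := by
        filter_upwards [h3] with z hz
        have h5 : b z = 0 := b.zero_of_le_dist (by
          rw [Metric.mem_closedBall, not_le] at hz
          exact hz.le)
        rw [h5, zero_smul]
      exact contDiffAt_const.congr_of_eventuallyEq h4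
  · filter_upwards [b.eventuallyEq_one] with y hy
    rw [hy]
    simp

theorem exists_graph3 {w : (ℝ × ℝ) × ℝ → ℝ} (hw : ContDiff ℝ 3 w) {p : (ℝ × ℝ) × ℝ}
    (hp : w p = 0) (hd : fderiv ℝ w p (0, 1) ≠ 0) :
    ∃ Ψ : ℝ × ℝ → ℝ, ContDiff ℝ 3 Ψ ∧ ∀ᶠ q in 𝓝 p, w q = 0 → q.2 = Ψ q.1 := by
  have hk' : (3 : WithTop ℕ∞) ≠ 0 := by norm_num
  have cdf : ContDiffAt ℝ 3 w p := hw.contDiffAt
  have hinv : (fderiv ℝ w p ∘L .inr ℝ (ℝ × ℝ) ℝ).IsInvertible := by
    set c : ℝ := fderiv ℝ w p (0, 1) with hc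
    have h1 : (fderiv ℝ w p ∘L .inr ℝ (ℝ × ℝ) ℝ) = c • ContinuousLinearMap.id ℝ ℝ := by
      ext
      simp [hc]
    rw [h1]
    refine ⟨ContinuousLinearEquiv.smulLeft (Units.mk0 c hd), ?_⟩
    ext
    simp
  have h1 := cdf.contDiffAt_implicitFunction hk' hinv
  have h2 := cdf.eventually_apply_eq_iff_implicitFunction hk' hinv
  obtain ⟨Ψ, hΨ, hΨ2⟩ := exists_ext (k := 3) (by exact_mod_cast h1)
  refine ⟨Ψ, by exact_mod_cast hΨ, ?_⟩
  have h3 : ∀ᶠ q : (ℝ × ℝ) × ℝ in 𝓝 p, Ψ q.1 = cdf.implicitFunction hk' hinv q.1 :=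
    continuous_fst.continuousAt.eventually hΨ2
  filter_upwards [h2, h3] with q hq1 hq2 hq
  rw [hp] at hq1
  have := hq1.1 hq
  rw [hq2, this]

/-- two-dimensional Sard theorem, in the form we need -/
theorem sard2 {g : ℝ × ℝ → ℝ} (hg : ContDiff ℝ 3 g) {A Q : Set (ℝ × ℝ)} (hQ : IsCompact Q)
    (hQc : Convex ℝ Q) (hA : A ⊆ Q) (hz : ∀ p ∈ A, fderiv ℝ g p = 0) :
    dimH (g '' A) ≤ ENNReal.ofReal (2 / 3) := by
  have h1 : ContDiff ℝ 2 (fderiv ℝ g) := hg.fderiv_right (by norm_num)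
  have h2 : ContDiff ℝ 2 (fun p => (fderiv ℝ g p (1, 0), fderiv ℝ g p (0, 1))) :=
    (h1.clm_apply contDiff_const).prodMk (h1.clm_apply contDiff_const)
  have h := Pool.Agent.H664.Sard.dim_image_le (m := 2) le_rfl (H := g)
    (hg.of_le (by norm_num)) (f := fun p => (fderiv ℝ g p (1, 0), fderiv ℝ g p (0, 1)))
    (by exact_mod_cast h2) hQ hQc (C := 2) (by norm_num) (fun q _ => by
      refine ContinuousLinearMap.opNorm_le_bound _ (by positivity) fun v => ?_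
      have e : fderiv ℝ g q v = v.1 * fderiv ℝ g q (1, 0) + v.2 * fderiv ℝ g q (0, 1) := by
        have : v = v.1 • ((1 : ℝ), (0 : ℝ)) + v.2 • ((0 : ℝ), (1 : ℝ)) := by ext <;> simp
        conv_lhs => rw [this]
        rw [map_add, map_smul, map_smul, smul_eq_mul, smul_eq_mul]
      rw [e]
      have a1 : ‖fderiv ℝ g q (1, 0)‖ ≤ ‖(fderiv ℝ g q (1, 0), fderiv ℝ g q (0, 1))‖ :=
        norm_fst_le (fderiv ℝ g q (1, 0), fderiv ℝ g q (0, 1))
      have a2 : ‖fderiv ℝ g q (0, 1)‖ ≤ ‖(fderiv ℝ g q (1, 0), fderiv ℝ g q (0, 1))‖ :=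
        norm_snd_le (fderiv ℝ g q (1, 0), fderiv ℝ g q (0, 1))
      have a3 : ‖v.1‖ ≤ ‖v‖ := norm_fst_le _
      have a4 : ‖v.2‖ ≤ ‖v‖ := norm_snd_le _
      refine (norm_add_le _ _).trans ?_
      rw [norm_mul, norm_mul]
      have a5 := mul_le_mul a3 a1 (norm_nonneg _) (norm_nonneg _)
      have a6 := mul_le_mul a4 a2 (norm_nonneg _) (norm_nonneg _)
      linarith) hA (fun p hp => by simp [hz p hp])
  refine h.trans (le_of_eq ?_)
  norm_num

theorem sq_le_of_abs {A : ℝ} (hA : |A| ≤ 1 / 100) : A ^ 2 ≤ 1 / 10000 := by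
  have := sq_le_sq' (abs_le.1 hA).1 (abs_le.1 hA).2
  norm_num at this
  linarith

theorem L_bound {A B s t : ℝ} (hA : |A| ≤ 1 / 100) (hB : |B| ≤ 1 / 100) (ht : t = s ^ 2 - s) :
    (A * (2 * s - 1) - B * (2 - s)) ^ 2 ≤ 18 / 10000 * (1 + t) := by
  have k1 : A ^ 2 * (2 * s - 1) ^ 2 ≤ 1 / 10000 * (2 * s - 1) ^ 2 :=
    mul_le_mul_of_nonneg_right (sq_le_of_abs hA) (sq_nonneg _)
  have k2 : B ^ 2 * (2 - s) ^ 2 ≤ 1 / 10000 * (2 - s) ^ 2 :=
    mul_le_mul_of_nonneg_right (sq_le_of_abs hB) (sq_nonneg _)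
  have k3 := sq_nonneg (A * (2 * s - 1) + B * (2 - s))
  have k4 : (A * (2 * s - 1) - B * (2 - s)) ^ 2 ≤
      2 * (A ^ 2 * (2 * s - 1) ^ 2) + 2 * (B ^ 2 * (2 - s) ^ 2) := by
    linear_combination k3
  have k5 := sq_nonneg (s - 1)
  have k6 := sq_nonneg (s + 1)
  have k7 : 2 * (1 / 10000 * (2 * s - 1) ^ 2) + 2 * (1 / 10000 * (2 - s) ^ 2) ≤
      18 / 10000 * (1 + t) := by
    rw [ht]
    nlinarith
  linarith

theorem M_bound {A B s t : ℝ} (hA : |A| ≤ 1 / 100) (hB : |B| ≤ 1 / 100) (ht : t = s ^ 2 - s) :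
    (A + B * s) ^ 2 ≤ 4 / 10000 * (1 + t) := by
  have k1 := sq_le_of_abs hA
  have k2 : B ^ 2 * s ^ 2 ≤ 1 / 10000 * s ^ 2 :=
    mul_le_mul_of_nonneg_right (sq_le_of_abs hB) (sq_nonneg _)
  have k3 := sq_nonneg (A - B * s)
  have k4 : (A + B * s) ^ 2 ≤ 2 * A ^ 2 + 2 * (B ^ 2 * s ^ 2) := by
    linear_combination k3
  have k5 := sq_nonneg (s - 1)
  rw [ht]
  linarith

theorem crit_eq {A B s t : ℝ} (ht : t = s ^ 2 - s) (h1 : Crit A B 1 s) :
    (1 + t) ^ 2 * (A * (2 * s - 1) - B * (2 - s)) ^ 2 = (2 - t) ^ 2 * (1 + 4 * t) := by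
  have hτ : qT 1 s = 1 + t := by rw [ht]; unfold qT; ring
  have e1 : (1 + t) * (A * (2 * s - 1) - B * (2 - s)) = (1 + s) * (2 - s) * (1 - 2 * s) := by
    unfold Crit at h1
    rw [hτ] at h1
    linear_combination h1
  have : (1 + t) ^ 2 * (A * (2 * s - 1) - B * (2 - s)) ^ 2 =
      ((1 + t) * (A * (2 * s - 1) - B * (2 - s))) ^ 2 := by ring
  rw [this, e1, ht]; ring

/-- non-degeneracy of the critical directions -/
theorem nondeg {A B s : ℝ} (hA : |A| ≤ 1 / 100) (hB : |B| ≤ 1 / 100)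
    (h1 : Crit A B 1 s)
    (h2 : (2 * s - 1) * (A * (2 * s - 1) - B * (2 - s)) + qT 1 s * (2 * A + B) -
      (6 * s ^ 2 - 6 * s - 3) = 0) : False := by
  obtain ⟨t, ht⟩ : ∃ t, t = s ^ 2 - s := ⟨_, rfl⟩
  have hτ : qT 1 s = 1 + t := by rw [ht]; unfold qT; ring
  have ht0 : -1 / 4 ≤ t := by
    have := sq_nonneg (2 * s - 1)
    linarith
  have hτ0 : 0 < 1 + t := by linarith
  have hL2 := L_bound hA hB ht
  have e2 := crit_eq ht h1
  obtain ⟨L, hL⟩ : ∃ L, L = A * (2 * s - 1) - B * (2 - s) := ⟨_, rfl⟩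
  rw [← hL] at h2 hL2 e2
  have e3 : (2 * s - 1) ^ 2 = 1 + 4 * t := by rw [ht]; ring
  have e4 : 6 * t - 3 = (2 * s - 1) * L + (1 + t) * (2 * A + B) := by
    rw [hτ] at h2
    linear_combination (-1) * h2 + 6 * ht
  have k3 : ((2 * s - 1) * L) ^ 2 ≤ (9 / 100 * (1 + t)) ^ 2 := by
    rw [mul_pow, e3]
    have h3 : (1 + 4 * t) * L ^ 2 ≤ (4 * (1 + t)) * (18 / 10000 * (1 + t)) :=
      mul_le_mul (by linarith) hL2 (sq_nonneg _) (by linarith)
    have h4 := sq_nonneg (1 + t)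
    have h5 : (4 * (1 + t)) * (18 / 10000 * (1 + t)) = 72 / 10000 * (1 + t) ^ 2 := by ring
    have h6 : (9 / 100 * (1 + t)) ^ 2 = 81 / 10000 * (1 + t) ^ 2 := by ring
    rw [h6]
    linarith
  have k4 := abs_le.1 (abs_le_of_sq_le_sq k3 (by positivity))
  have k5 : |2 * A + B| ≤ 3 / 100 := by
    have a1 := abs_le.1 hA
    have a2 := abs_le.1 hB
    rw [abs_le]
    constructor <;> linarith [a1.1, a1.2, a2.1, a2.2]
  have k6 := abs_le.1 k5
  have k7 : (1 + t) * (2 * A + B) ≤ (1 + t) * (3 / 100) :=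
    mul_le_mul_of_nonneg_left k6.2 hτ0.le
  have k8 : (1 + t) * (-(3 / 100)) ≤ (1 + t) * (2 * A + B) :=
    mul_le_mul_of_nonneg_left k6.1 hτ0.le
  have t1 : t ≤ 54 / 100 := by
    have := k4.2
    linarith
  have t2 : 47 / 100 ≤ t := by
    have := k4.1
    linarith
  have l1 : (146 / 100) ^ 2 * (288 / 100) ≤ (2 - t) ^ 2 * (1 + 4 * t) :=
    mul_le_mul (pow_le_pow_left₀ (by norm_num) (by linarith) 2) (by linarith) (by norm_num)
      (sq_nonneg _)
  have l2 : (1 + t) ^ 2 * L ^ 2 ≤ (154 / 100) ^ 2 * (18 / 10000 * (154 / 100)) :=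
    mul_le_mul (pow_le_pow_left₀ (by linarith) (by linarith) 2) (hL2.trans (by linarith))
      (sq_nonneg _) (by norm_num)
  rw [e2] at l2
  have := l1.trans l2
  norm_num at this

/-- fibrewise critical directions have nonzero first component -/
theorem crit_ne {A B p q : ℝ} (hA : |A| ≤ 1 / 100) (hB : |B| ≤ 1 / 100) (h : Crit A B p q)
    (hne : p ≠ 0 ∨ q ≠ 0) : p ≠ 0 := by
  rintro rfl
  have hq : q ≠ 0 := by rcases hne with h | h; exact absurd rfl h; exact h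
  unfold Crit qT at h
  have e : q ^ 3 * (2 * A + B - 2) = 0 := by linear_combination h
  have h2 := (mul_eq_zero.1 e).resolve_left (pow_ne_zero 3 hq)
  have a1 := abs_le.1 hA
  have a2 := abs_le.1 hB
  linarith [a1.2, a2.2]

theorem crit_scale {A B p q : ℝ} (hp : p ≠ 0) (h : Crit A B p q) : Crit A B 1 (q / p) := by
  unfold Crit qT at *
  field_simp
  linear_combination h

/-- no critical zero -/
theorem crit_val {A B s : ℝ} (hA : |A| ≤ 1 / 100) (hB : |B| ≤ 1 / 100)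
    (h1 : Crit A B 1 s) : qF A B 1 s ≠ 0 := by
  intro h2
  obtain ⟨t, ht⟩ : ∃ t, t = s ^ 2 - s := ⟨_, rfl⟩
  have hτ : qT 1 s = 1 + t := by rw [ht]; unfold qT; ring
  have ht0 : -1 / 4 ≤ t := by
    have := sq_nonneg (2 * s - 1)
    linarith
  -- the first equation
  have e1 : t = (1 + t) * (A + B * s) := by
    unfold qF at h2
    rw [hτ] at h2
    linear_combination ht - h2
  have hM := M_bound hA hB ht
  have hL2 := L_bound hA hB ht
  have e2 := crit_eq ht h1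
  have f1 : t ^ 2 ≤ 4 / 10000 * (1 + t) ^ 3 := by
    have h3 : t ^ 2 = (1 + t) ^ 2 * (A + B * s) ^ 2 := by
      rw [← mul_pow, ← e1]
    rw [h3]
    have h4 := mul_le_mul_of_nonneg_left hM (sq_nonneg (1 + t))
    refine h4.trans (le_of_eq ?_)
    ring
  have f2 : (2 - t) ^ 2 * (1 + 4 * t) ≤ 18 / 10000 * (1 + t) ^ 3 := by
    rw [← e2]
    have h4 := mul_le_mul_of_nonneg_left hL2 (sq_nonneg (1 + t))
    refine h4.trans (le_of_eq ?_)
    ring
  clear hM hL2 e2 e1 h1 h2 hτ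
  rcases le_or_gt t 1 with h | h
  · have g1 : (1 + t) ^ 3 ≤ 2 ^ 3 := pow_le_pow_left₀ (by linarith) (by linarith) 3
    have g2 : t ^ 2 ≤ (1 / 10) ^ 2 := by linarith
    have g3 := abs_le.1 (abs_le_of_sq_le_sq g2 (by norm_num))
    have g4 : (19 / 10) ^ 2 * (6 / 10) ≤ (2 - t) ^ 2 * (1 + 4 * t) :=
      mul_le_mul (pow_le_pow_left₀ (by norm_num) (by linarith) 2) (by linarith) (by norm_num)
        (sq_nonneg _)
    linarith
  · have g1 : (1 + t) ^ 3 ≤ (2 * t) ^ 3 := pow_le_pow_left₀ (by linarith) (by linarith) 3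
    have e5 : (2 * t) ^ 3 = 8 * t ^ 3 := by ring
    have g2 : t ^ 2 * 1 ≤ t ^ 2 * (32 / 10000 * t) := by
      have e6 : t ^ 2 * (32 / 10000 * t) = 32 / 10000 * t ^ 3 := by ring
      rw [e6]
      linarith
    have g3 : 1 ≤ 32 / 10000 * t := le_of_mul_le_mul_left g2 (by positivity)
    have g4 : (t / 2) ^ 2 * (4 * t) ≤ (2 - t) ^ 2 * (1 + 4 * t) := by
      have e6 : (2 - t) ^ 2 = (t - 2) ^ 2 := by ring
      rw [e6]
      exact mul_le_mul (pow_le_pow_left₀ (by linarith) (by linarith) 2) (by linarith)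
        (by linarith) (sq_nonneg _)
    have g5 : 0 < t ^ 3 := by positivity
    have e7 : (t / 2) ^ 2 * (4 * t) = t ^ 3 := by ring
    linarith

end Pool.Agent.TH309.LA
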