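import Pool.Agent.Helper197.Ode

/-! The joint action of two commuting complete vector fields. -/

set_option autoImplicit false

open Set Filter Topology Pool.Agent.Helper197
open scoped ContDiff

namespace Pool.Agent.TH309.LA

/-- two commuting bounded vector fields -/
structure Pair (E : Type*) [NormedAddCommGroup E] [NormedSpace ℝ E] where
  X : E → E
  Y : E → E
  hX : ContDiff ℝ ∞ X
  hY : ContDiff ℝ ∞ Y
  KX : NNReal
  BX : NNReal
  KY : NNReal
  BY : NNReal
  CY : NNReal
  lX : LipschitzWith KX X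
  bX : ∀ z, ‖X z‖ ≤ BX
  lY : LipschitzWith KY Y
  bY : ∀ z, ‖Y z‖ ≤ BY
  lY' : LipschitzWith CY (fderiv ℝ Y)
  comm : ∀ z, fderiv ℝ X z (Y z) = fderiv ℝ Y z (X z)

variable {E : Type*} [NormedAddCommGroup E] [NormedSpace ℝ E] [FiniteDimensional ℝ E]

omit [FiniteDimensional ℝ E] in
theorem curve_unique {v : E → E} {K : NNReal} (hK : LipschitzWith K v) {c d : ℝ → E}
    (hc : ∀ t, HasDerivAt c (v (c t)) t) (hd : ∀ t, HasDerivAt d (v (d t)) t) (h : c 0 = d 0) :
    ∀ t, c t = d t := by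
  intro t
  have := ODE_solution_unique_univ (v := fun _ => v) (s := fun _ => univ) (K := K) (t₀ := 0)
    (fun _ => hK.lipschitzOnWith) (fun t => ⟨hc t, trivial⟩) (fun t => ⟨hd t, trivial⟩) h
  rw [this]

namespace Pair

variable (P : Pair E)

theorem exX : ∃ φ : ℝ → E → E, (∀ z, φ 0 z = z) ∧
    (∀ z t, HasDerivAt (fun s => φ s z) (P.X (φ t z)) t) :=
  SI.exists_flow_aux P.X P.lX P.bX

theorem exY : ∃ φ : ℝ → E → E, (∀ z, φ 0 z = z) ∧
    (∀ z t, HasDerivAt (fun s => φ s z) (P.Y (φ t z)) t) :=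
  SI.exists_flow_aux P.Y P.lY P.bY

noncomputable def ph : ℝ → E → E := P.exX.choose
noncomputable def ps : ℝ → E → E := P.exY.choose

theorem ph_zero (z : E) : P.ph 0 z = z := P.exX.choose_spec.1 z
theorem ps_zero (z : E) : P.ps 0 z = z := P.exY.choose_spec.1 z
theorem ph_deriv (z : E) (t : ℝ) : HasDerivAt (fun s => P.ph s z) (P.X (P.ph t z)) t :=
  P.exX.choose_spec.2 z t
theorem ps_deriv (z : E) (t : ℝ) : HasDerivAt (fun s => P.ps s z) (P.Y (P.ps t z)) t :=
  P.exY.choose_spec.2 z t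

theorem ph_add (s t : ℝ) (z : E) : P.ph (s + t) z = P.ph s (P.ph t z) :=
  SI.flow_add P.lX P.ph_zero P.ph_deriv s t z
theorem ps_add (s t : ℝ) (z : E) : P.ps (s + t) z = P.ps s (P.ps t z) :=
  SI.flow_add P.lY P.ps_zero P.ps_deriv s t z

theorem estimate (s₀ : ℝ) (z : E) : ∃ M : ℝ, ∀ h : ℝ,
    ‖P.ps s₀ (P.ph h z) - P.ps s₀ z - h • P.X (P.ps s₀ z)‖ ≤ h ^ 2 * M := by
  have hX1 : ContDiff ℝ 1 P.X := P.hX.of_le (by norm_cast)
  have hY1 : ContDiff ℝ 1 P.Y := P.hY.of_le (by norm_cast)
  rcases le_total 0 s₀ with hs | hs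
  · exact ⟨_, fun h => SI.transport P.X P.Y P.lX P.bX P.lY hX1 hY1 P.lY' P.ph P.ps P.ph_zero
      P.ph_deriv P.ps_zero P.ps_deriv univ (fun z _ => P.comm z) z s₀ hs (fun _ _ => trivial) h⟩
  · have hC' : LipschitzWith P.CY (fderiv ℝ (fun z => - P.Y z)) := by
      have : fderiv ℝ (fun z => - P.Y z) = fun z => - fderiv ℝ P.Y z := by
        funext x
        exact fderiv_fun_neg
      rw [this]
      exact P.lY'.neg
    have hbr' : ∀ z ∈ (univ : Set E), fderiv ℝ P.X z (- P.Y z) =
        fderiv ℝ (fun z => - P.Y z) z (P.X z) := by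
      intro x _
      have : fderiv ℝ (fun z => - P.Y z) x = - fderiv ℝ P.Y x := fderiv_fun_neg
      rw [this, map_neg, P.comm x]
      rfl
    refine ⟨gronwallBound (P.KX * P.BX) (P.KY + 1)
      (P.CY * (Real.exp (P.KY * (-s₀)) * P.BX) ^ 2) (-s₀), fun h => ?_⟩
    have := SI.transport P.X (fun z => - P.Y z) P.lX P.bX P.lY.neg hX1 hY1.neg hC' P.ph
      (fun s z => P.ps (-s) z) P.ph_zero P.ph_deriv (fun x => by simp [P.ps_zero])
      (SI.flow_neg P.ps_deriv) univ hbr' z (-s₀) (by linarith) (fun _ _ => trivial) h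
    simp only [neg_neg] at this
    exact this

theorem comm_deriv (s₀ : ℝ) (z : E) (t : ℝ) :
    HasDerivAt (fun t => P.ps s₀ (P.ph t z)) (P.X (P.ps s₀ (P.ph t z))) t := by
  obtain ⟨M, hM⟩ := P.estimate s₀ (P.ph t z)
  rw [hasDerivAt_iff_isLittleO_nhds_zero]
  have hO2 : (fun h => P.ps s₀ (P.ph (t + h) z) - P.ps s₀ (P.ph t z) -
      h • P.X (P.ps s₀ (P.ph t z))) =O[𝓝 0] (fun h : ℝ => h ^ 2) := by
    refine Asymptotics.IsBigO.of_bound (max M 0) (Filter.Eventually.of_forall fun h => ?_)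
    rw [add_comm t h, P.ph_add]
    refine (hM h).trans ?_
    rw [Real.norm_eq_abs, abs_of_nonneg (sq_nonneg h), mul_comm]
    exact mul_le_mul_of_nonneg_right (le_max_left _ _) (sq_nonneg h)
  exact hO2.trans_isLittleO (Asymptotics.isLittleO_pow_id (by norm_num))

theorem commute (s t : ℝ) (z : E) : P.ps s (P.ph t z) = P.ph t (P.ps s z) := by
  refine curve_unique P.lX (c := fun t => P.ps s (P.ph t z)) (d := fun t => P.ph t (P.ps s z))
    (fun t => P.comm_deriv s z t) (fun t => P.ph_deriv _ t) ?_ t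
  simp only [P.ph_zero]

/-- the joint action -/
noncomputable def act (v : ℝ × ℝ) (z : E) : E := P.ph v.1 (P.ps v.2 z)

theorem act_zero (z : E) : P.act 0 z = z := by
  unfold act; simp only [Prod.fst_zero, Prod.snd_zero]; rw [P.ps_zero, P.ph_zero]

theorem act_add (v w : ℝ × ℝ) (z : E) : P.act (v + w) z = P.act v (P.act w z) := by
  unfold act
  simp only [Prod.fst_add, Prod.snd_add]
  rw [P.ps_add, P.ph_add, P.commute]

theorem act_neg (v : ℝ × ℝ) (z : E) : P.act (-v) (P.act v z) = z := by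
  rw [← P.act_add, neg_add_cancel, P.act_zero]

theorem act_d1 (z : E) (s t : ℝ) :
    HasDerivAt (fun s => P.act (s, t) z) (P.X (P.act (s, t) z)) s :=
  P.ph_deriv (P.ps t z) s

theorem act_d2 (z : E) (s t : ℝ) :
    HasDerivAt (fun t => P.act (s, t) z) (P.Y (P.act (s, t) z)) t := by
  have e : ∀ t, P.act (s, t) z = P.ps t (P.ph s z) := fun t => (P.commute t s z).symm
  have h := P.ps_deriv (P.ph s z) t
  rw [← e t] at h
  exact h.congr_of_eventuallyEq (Eventually.of_forall e)

theorem continuous_act (z : E) : Continuous fun v : ℝ × ℝ => P.act v z := by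
  have h1 := SI.flow_cont P.lX P.bX P.ph_zero P.ph_deriv
  have h2 := SI.flow_cont P.lY P.bY P.ps_zero P.ps_deriv
  have h3 : Continuous fun v : ℝ × ℝ => P.ps v.2 z :=
    h2.comp (by fun_prop : Continuous fun v : ℝ × ℝ => ((v.2, z) : ℝ × E))
  exact h1.comp (continuous_fst.prodMk h3)

/-- the derivative of the orbit map -/
noncomputable def dact (z : E) : ℝ × ℝ →L[ℝ] E :=
  (ContinuousLinearMap.toSpanSingleton ℝ (P.X z)).coprod
    (ContinuousLinearMap.toSpanSingleton ℝ (P.Y z))

omit [FiniteDimensional ℝ E] in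
@[simp] theorem dact_apply (z : E) (v : ℝ × ℝ) : P.dact z v = v.1 • P.X z + v.2 • P.Y z := by
  simp [dact]

theorem hasStrictFDerivAt_act (z : E) (v : ℝ × ℝ) :
    HasStrictFDerivAt (fun v => P.act v z) (P.dact (P.act v z)) v := by
  have hc := P.continuous_act z
  exact hasStrictFDerivAt_uncurry_coprod (𝕜 := ℝ) (u := v) (f := fun s t => P.act (s, t) z)
    (f₁ := fun s t => ContinuousLinearMap.toSpanSingleton ℝ (P.X (P.act (s, t) z)))
    (f₂ := fun s t => ContinuousLinearMap.toSpanSingleton ℝ (P.Y (P.act (s, t) z)))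
    (Eventually.of_forall fun v => (P.act_d1 z v.1 v.2).hasFDerivAt)
    (Eventually.of_forall fun v => (P.act_d2 z v.1 v.2).hasFDerivAt)
    (by
      have : Continuous fun v : ℝ × ℝ =>
          ContinuousLinearMap.toSpanSingleton ℝ (P.X (P.act v z)) :=
        (ContinuousLinearMap.toSpanSingletonCLE (𝕜 := ℝ) (E := E)).continuous.comp
          (P.hX.continuous.comp hc)
      exact this.continuousAt)
    (by
      have : Continuous fun v : ℝ × ℝ =>
          ContinuousLinearMap.toSpanSingleton ℝ (P.Y (P.act v z)) :=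
        (ContinuousLinearMap.toSpanSingletonCLE (𝕜 := ℝ) (E := E)).continuous.comp
          (P.hY.continuous.comp hc)
      exact this.continuousAt)

theorem contDiff_act (z : E) : ContDiff ℝ ∞ fun v : ℝ × ℝ => P.act v z := by
  rw [contDiff_infty]
  intro n
  induction n with
  | zero => exact_mod_cast contDiff_zero.2 (P.continuous_act z)
  | succ n ih =>
    have key : ContDiff ℝ ((n : WithTop ℕ∞) + 1) fun v : ℝ × ℝ => P.act v z := by
      rw [contDiff_succ_iff_hasFDerivAt]
      refine ⟨fun v => P.dact (P.act v z), ?_, fun v => (P.hasStrictFDerivAt_act z v).hasFDerivAt⟩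
      have h1 : ContDiff ℝ n fun v : ℝ × ℝ =>
          ContinuousLinearMap.toSpanSingleton ℝ (P.X (P.act v z)) :=
        (ContinuousLinearMap.toSpanSingletonCLE (𝕜 := ℝ) (E := E)).contDiff.comp
          ((P.hX.of_le (by exact_mod_cast le_top)).comp ih)
      have h2 : ContDiff ℝ n fun v : ℝ × ℝ =>
          ContinuousLinearMap.toSpanSingleton ℝ (P.Y (P.act v z)) :=
        (ContinuousLinearMap.toSpanSingletonCLE (𝕜 := ℝ) (E := E)).contDiff.comp
          ((P.hY.of_le (by exact_mod_cast le_top)).comp ih)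
      have e : (fun v : ℝ × ℝ => P.dact (P.act v z)) = fun v : ℝ × ℝ =>
          (ContinuousLinearMap.toSpanSingleton ℝ (P.X (P.act v z))).comp
            (ContinuousLinearMap.fst ℝ ℝ ℝ) +
          (ContinuousLinearMap.toSpanSingleton ℝ (P.Y (P.act v z))).comp
            (ContinuousLinearMap.snd ℝ ℝ ℝ) := by
        funext v
        ext <;> simp [dact]
      rw [e]
      exact (h1.clm_comp contDiff_const).add (h2.clm_comp contDiff_const)
    exact_mod_cast key

theorem fderiv_act (z : E) (v : ℝ × ℝ) :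
    fderiv ℝ (fun v => P.act v z) v = P.dact (P.act v z) :=
  (P.hasStrictFDerivAt_act z v).hasFDerivAt.fderiv

/-- translation equivariance -/
theorem act_shift {a : E} (hX : ∀ z, P.X (z + a) = P.X z) (hY : ∀ z, P.Y (z + a) = P.Y z)
    (v : ℝ × ℝ) (z : E) : P.act v (z + a) = P.act v z + a := by
  have h1 : ∀ t z, P.ph t (z + a) = P.ph t z + a := by
    intro t z
    refine curve_unique P.lX (c := fun t => P.ph t (z + a)) (d := fun t => P.ph t z + a)
      (fun t => P.ph_deriv _ t) (fun t => ?_) ?_ t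
    · rw [hX]; exact (P.ph_deriv z t).add_const a
    · simp only [P.ph_zero]
  have h2 : ∀ t z, P.ps t (z + a) = P.ps t z + a := by
    intro t z
    refine curve_unique P.lY (c := fun t => P.ps t (z + a)) (d := fun t => P.ps t z + a)
      (fun t => P.ps_deriv _ t) (fun t => ?_) ?_ t
    · rw [hY]; exact (P.ps_deriv z t).add_const a
    · simp only [P.ps_zero]
  unfold act
  rw [h2, h1]

/-- conserved quantities -/
theorem act_const {F : Type*} [NormedAddCommGroup F] [NormedSpace ℝ F] {G : E → F}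
    (hG : Differentiable ℝ G) (h1 : ∀ z, fderiv ℝ G z (P.X z) = 0)
    (h2 : ∀ z, fderiv ℝ G z (P.Y z) = 0) (v : ℝ × ℝ) (z : E) : G (P.act v z) = G z := by
  have hd : Differentiable ℝ fun v => G (P.act v z) := fun v =>
    (hG _).comp v (P.hasStrictFDerivAt_act z v).hasFDerivAt.differentiableAt
  have h0 : ∀ v, fderiv ℝ (fun v => G (P.act v z)) v = 0 := by
    intro v
    have := ((hG (P.act v z)).hasFDerivAt.comp v (P.hasStrictFDerivAt_act z v).hasFDerivAt).fderiv
    have e : fderiv ℝ (fun v => G (P.act v z)) v =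
      (fderiv ℝ G (P.act v z)).comp (P.dact (P.act v z)) := this
    rw [e]
    ext <;> simp [h1, h2]
  have := is_const_of_fderiv_eq_zero hd h0 v 0
  simp only [P.act_zero] at this
  exact this

end Pair

end Pool.Agent.TH309.LA
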