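import Pool.Agent.TH309.LA.Lat

/-! Hamiltonian vector fields on the cotangent bundle of the torus. -/

set_option autoImplicit false

open Set Filter Topology
open scoped ContDiff

namespace Pool.Agent.TH309.LA

/-- symplectic gradient of a covector -/
noncomputable def Jm : (Ph →L[ℝ] ℝ) →L[ℝ] Ph :=
  (ContinuousLinearMap.pi fun i : Fin 2 =>
    ContinuousLinearMap.apply ℝ ℝ ((0, Pi.single i 1) : Ph)).prod
  (-(ContinuousLinearMap.pi fun i : Fin 2 =>
    ContinuousLinearMap.apply ℝ ℝ ((Pi.single i 1, 0) : Ph)))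

theorem Jm_fst (α : Ph →L[ℝ] ℝ) (i : Fin 2) : (Jm α).1 i = α (0, Pi.single i 1) := by
  simp [Jm]

theorem Jm_snd (α : Ph →L[ℝ] ℝ) (i : Fin 2) : (Jm α).2 i = -α (Pi.single i 1, 0) := by
  simp [Jm]

/-- the symplectic form -/
def symp (v w : Ph) : ℝ := ∑ i, (v.1 i * w.2 i - w.1 i * v.2 i)

theorem dual_apply (α : Ph →L[ℝ] ℝ) (v : Ph) :
    α v = ∑ i, (v.1 i * α (Pi.single i 1, 0) + v.2 i * α (0, Pi.single i 1)) := by
  have e : v = v.1 0 • (Pi.single 0 1, 0) + v.1 1 • (Pi.single 1 1, 0) +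
      v.2 0 • (0, Pi.single 0 1) + v.2 1 • ((0, Pi.single 1 1) : Ph) := by
    ext i
    · fin_cases i <;> simp
    · fin_cases i <;> simp
  conv_lhs => rw [e]
  rw [map_add, map_add, map_add, map_smul, map_smul, map_smul, map_smul, Fin.sum_univ_two]
  simp only [smul_eq_mul]
  ring

theorem symp_Jm (α : Ph →L[ℝ] ℝ) (v : Ph) : symp (Jm α) v = α v := by
  rw [dual_apply α v]
  unfold symp
  refine Finset.sum_congr rfl fun i _ => ?_
  rw [Jm_fst, Jm_snd]; ring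

theorem symp_swap (v w : Ph) : symp v w = -symp w v := by
  unfold symp
  rw [← Finset.sum_neg_distrib]
  exact Finset.sum_congr rfl fun i _ => by ring

theorem Jm_skew (α β : Ph →L[ℝ] ℝ) : α (Jm β) = -β (Jm α) := by
  rw [← symp_Jm, ← symp_Jm, symp_swap]

theorem Jm_inj {α : Ph →L[ℝ] ℝ} (h : Jm α = 0) : α = 0 := by
  refine ContinuousLinearMap.ext fun v => ?_
  rw [← symp_Jm, h]
  simp [symp]

/-- the Hamiltonian vector field -/
noncomputable def ham (f : Ph → ℝ) (z : Ph) : Ph := Jm (fderiv ℝ f z)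

theorem contDiff_ham {f : Ph → ℝ} (hf : ContDiff ℝ ∞ f) : ContDiff ℝ ∞ (ham f) :=
  Jm.contDiff.comp (hf.fderiv_right (m := ∞) (by norm_num))

theorem fderiv_periodic {F : Type*} [NormedAddCommGroup F] [NormedSpace ℝ F] {f : Ph → F}
    (hp : ∀ z k, f (z + vec k) = f z) (z : Ph) (k : Fin 2 → ℤ) :
    fderiv ℝ f (z + vec k) = fderiv ℝ f z := by
  have h1 : (fun z => f (z + vec k)) = f := funext fun z => hp z k
  have h2 := fderiv_comp_add_right (𝕜 := ℝ) (f := f) (x := z) (vec k)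
  rw [h1] at h2
  exact h2.symm

theorem ham_periodic {f : Ph → ℝ} (hp : ∀ z k, f (z + vec k) = f z) (z : Ph) (k : Fin 2 → ℤ) :
    ham f (z + vec k) = ham f z := by
  unfold ham; rw [fderiv_periodic hp]

/-- commuting Hamiltonians have commuting fields -/
theorem ham_comm {f g : Ph → ℝ} (hf : ContDiff ℝ ∞ f) (hg : ContDiff ℝ ∞ g)
    (h : ∀ z, fderiv ℝ f z (ham g z) = 0) (z : Ph) :
    fderiv ℝ (ham f) z (ham g z) = fderiv ℝ (ham g) z (ham f z) := by
  have f1 : ContDiff ℝ ∞ (fderiv ℝ f) := hf.fderiv_right (m := ∞) (by norm_num)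
  have g1 : ContDiff ℝ ∞ (fderiv ℝ g) := hg.fderiv_right (m := ∞) (by norm_num)
  have hf2 : HasFDerivAt (fderiv ℝ f) (fderiv ℝ (fderiv ℝ f) z) z :=
    (f1.differentiable (by simp) z).hasFDerivAt
  have hg2 : HasFDerivAt (fderiv ℝ g) (fderiv ℝ (fderiv ℝ g) z) z :=
    (g1.differentiable (by simp) z).hasFDerivAt
  have e1 : ∀ w, fderiv ℝ (ham f) z w = Jm (fderiv ℝ (fderiv ℝ f) z w) := by
    intro w
    have : fderiv ℝ (ham f) z = Jm.comp (fderiv ℝ (fderiv ℝ f) z) :=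
      (Jm.hasFDerivAt.comp z hf2).fderiv
    rw [this]; rfl
  have e2 : ∀ w, fderiv ℝ (ham g) z w = Jm (fderiv ℝ (fderiv ℝ g) z w) := by
    intro w
    have : fderiv ℝ (ham g) z = Jm.comp (fderiv ℝ (fderiv ℝ g) z) :=
      (Jm.hasFDerivAt.comp z hg2).fderiv
    rw [this]; rfl
  have sf : ∀ v w, fderiv ℝ (fderiv ℝ f) z v w = fderiv ℝ (fderiv ℝ f) z w v := fun v w =>
    (hf.contDiffAt.isSymmSndFDerivAt (by simp; norm_cast)) v w
  have sg : ∀ v w, fderiv ℝ (fderiv ℝ g) z v w = fderiv ℝ (fderiv ℝ g) z w v := fun v w =>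
    (hg.contDiffAt.isSymmSndFDerivAt (by simp; norm_cast)) v w
  -- differentiate the bracket
  have hd : ∀ w, fderiv ℝ (fderiv ℝ f) z w (ham g z) + fderiv ℝ f z (fderiv ℝ (ham g) z w) = 0 := by
    intro w
    have k1 : HasFDerivAt (fun z => fderiv ℝ f z (ham g z)) _ z :=
      hf2.clm_apply ((contDiff_ham hg).differentiable (by simp) z).hasFDerivAt
    have k2 : HasFDerivAt (fun z => fderiv ℝ f z (ham g z)) (0 : Ph →L[ℝ] ℝ) z := by
      have : (fun z => fderiv ℝ f z (ham g z)) = fun _ => 0 := funext h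
      rw [this]; exact hasFDerivAt_const _ _
    have k3 := congrArg (fun L : Ph →L[ℝ] ℝ => L w) (k1.unique k2)
    simp only [add_apply, ContinuousLinearMap.comp_apply, ContinuousLinearMap.flip_apply,
      zero_apply] at k3
    linarith
  rw [e1, e2]
  congr 1
  refine ContinuousLinearMap.ext fun w => ?_
  have k := hd w
  rw [e2, Jm_skew] at k
  rw [sf, sg]
  have e3 : fderiv ℝ (fderiv ℝ g) z w (Jm (fderiv ℝ f z)) =
      fderiv ℝ (fderiv ℝ g) z w (ham f z) := rfl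
  linarith

/-- the fundamental compact piece -/
theorem exists_rep' (z : Ph) : ∃ k, ∀ i, 0 ≤ (z + vec k).1 i ∧ (z + vec k).1 i ≤ 1 := by
  refine ⟨fun i => -⌊z.1 i⌋, fun i => ?_⟩
  have e : (z + vec fun i => -⌊z.1 i⌋).1 i = Int.fract (z.1 i) := by
    simp only [vec, Prod.fst_add, Pi.add_apply, Int.cast_neg]
    rw [← sub_eq_add_neg]
    rfl
  rw [e]
  exact ⟨Int.fract_nonneg _, (Int.fract_lt_one _).le⟩

theorem isCompact_box (R : ℝ) : IsCompact {z : Ph | (∀ i, 0 ≤ z.1 i ∧ z.1 i ≤ 1) ∧ ‖z.2‖ ≤ R} := by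
  have h1 : IsClosed {z : Ph | (∀ i, 0 ≤ z.1 i ∧ z.1 i ≤ 1) ∧ ‖z.2‖ ≤ R} := by
    have b0 : ∀ i : Fin 2, IsClosed {z : Ph | 0 ≤ z.1 i ∧ z.1 i ≤ 1} := fun i =>
      (isClosed_le continuous_const (by fun_prop : Continuous fun z : Ph => z.1 i)).inter
        (isClosed_le (by fun_prop : Continuous fun z : Ph => z.1 i) continuous_const)
    have b : IsClosed {z : Ph | ∀ i, 0 ≤ z.1 i ∧ z.1 i ≤ 1} := by
      have e : {z : Ph | ∀ i, 0 ≤ z.1 i ∧ z.1 i ≤ 1} = ⋂ i, {z : Ph | 0 ≤ z.1 i ∧ z.1 i ≤ 1} := by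
        ext z; simp
      rw [e]
      exact isClosed_iInter b0
    exact b.inter (isClosed_le (by fun_prop : Continuous fun z : Ph => ‖z.2‖) continuous_const)
  refine Metric.isCompact_of_isClosed_isBounded h1 ?_
  rw [isBounded_iff_forall_norm_le]
  refine ⟨max 1 R, ?_⟩
  rintro z ⟨hz2, hz1⟩
  rw [Prod.norm_def]
  refine max_le_max ?_ hz1
  rw [pi_norm_le_iff_of_nonneg zero_le_one]
  intro i
  rw [Real.norm_eq_abs, abs_le]
  exact ⟨by linarith [(hz2 i).1], (hz2 i).2⟩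

/-- periodic and supported in a bounded set of momenta -/
def Nice {F : Type*} [Zero F] (f : Ph → F) : Prop :=
  (∀ z k, f (z + vec k) = f z) ∧ ∃ R : ℝ, ∀ z, R < ‖z.2‖ → f z = 0

theorem Nice.bounded {F : Type*} [NormedAddCommGroup F] {f : Ph → F} (h : Nice f)
    (hc : Continuous f) : ∃ C : NNReal, ∀ z, ‖f z‖ ≤ C := by
  obtain ⟨hp, R, hR⟩ := h
  obtain ⟨C, hC⟩ := (isCompact_box R).exists_bound_of_continuousOn hc.continuousOn
  refine ⟨C.toNNReal, fun z => ?_⟩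
  obtain ⟨k, hk⟩ := exists_rep' z
  rw [← hp z k]
  by_cases hz : ‖(z + vec k).2‖ ≤ R
  · exact (hC _ ⟨hk, hz⟩).trans (Real.le_coe_toNNReal C)
  · rw [hR _ (not_le.1 hz), norm_zero]
    exact NNReal.coe_nonneg _

theorem Nice.fderiv {F : Type*} [NormedAddCommGroup F] [NormedSpace ℝ F] {f : Ph → F}
    (h : Nice f) : Nice (fderiv ℝ f) := by
  obtain ⟨hp, R, hR⟩ := h
  refine ⟨fun z k => fderiv_periodic hp z k, R, fun z hz => ?_⟩
  have h1 : f =ᶠ[𝓝 z] fun _ => 0 := by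
    have hc : Continuous fun z : Ph => ‖z.2‖ := by fun_prop
    filter_upwards [hc.continuousAt.eventually (lt_mem_nhds hz)] with w hw
    exact hR w hw
  rw [h1.fderiv_eq]
  simp

theorem Nice.lipschitz {F : Type*} [NormedAddCommGroup F] [NormedSpace ℝ F] {f : Ph → F}
    (h : Nice f) (hf : ContDiff ℝ ∞ f) : ∃ K : NNReal, LipschitzWith K f := by
  have h1 : Continuous (_root_.fderiv ℝ f) := hf.continuous_fderiv (by simp)
  obtain ⟨C, hC⟩ := h.fderiv.bounded h1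
  exact ⟨C, lipschitzWith_of_nnnorm_fderiv_le (hf.differentiable (by simp))
    fun z => by exact_mod_cast hC z⟩

end Pool.Agent.TH309.LA
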