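import Pool.Agent.TH309.LA.Loc

/-! The lattice of periods of an orbit on a compact regular level set. -/

set_option autoImplicit false

open Set Filter Topology
open scoped ContDiff

namespace Pool.Agent.TH309.LA

abbrev Ph := (Fin 2 → ℝ) × (Fin 2 → ℝ)

/-- the translation vectors of the covering -/
def vec (k : Fin 2 → ℤ) : Ph := (fun i => (k i : ℝ), 0)

theorem vec_add (k l : Fin 2 → ℤ) : vec (k + l) = vec k + vec l := by
  unfold vec; ext i <;> simp

theorem vec_zero : vec 0 = 0 := by unfold vec; ext i <;> simp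

theorem vec_neg (k : Fin 2 → ℤ) : vec (-k) = -vec k := by unfold vec; ext i <;> simp

theorem vec_inj {k l : Fin 2 → ℤ} (h : vec k = vec l) : k = l := by
  funext i
  have := congrFun (congrArg Prod.fst h) i
  simpa [vec] using this

theorem one_le_norm_vec {k : Fin 2 → ℤ} (h : k ≠ 0) : 1 ≤ ‖vec k‖ := by
  obtain ⟨i, hi⟩ : ∃ i, k i ≠ 0 := by
    by_contra hc
    push Not at hc
    exact h (funext hc)
  have h1 : (1 : ℝ) ≤ |(k i : ℝ)| := by
    rw [← Int.cast_abs]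
    exact_mod_cast Int.one_le_abs hi
  have h2 : ‖(vec k).1 i‖ ≤ ‖(vec k).1‖ := norm_le_pi_norm _ i
  have h3 : ‖(vec k).1‖ ≤ ‖vec k‖ := norm_fst_le _
  have h4 : ‖(vec k).1 i‖ = |(k i : ℝ)| := rfl
  linarith

/-- a commuting pair with invariants and a base point on a compact regular level set -/
structure Sys where
  P : Pair Ph
  G : Ph → ℝ × ℝ
  hG : ContDiff ℝ ∞ G
  pX : ∀ z k, P.X (z + vec k) = P.X z
  pY : ∀ z k, P.Y (z + vec k) = P.Y z
  pG : ∀ z k, G (z + vec k) = G z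
  h1 : ∀ z, fderiv ℝ G z (P.X z) = 0
  h2 : ∀ z, fderiv ℝ G z (P.Y z) = 0
  z0 : Ph
  reg : ∀ z, G z = G z0 → Indep (P.X z) (P.Y z) ∧ Function.Surjective (fderiv ℝ G z)
  R : ℝ
  hR : ∀ z, G z = G z0 → ‖z.2‖ ≤ R

namespace Sys

variable (S : Sys)

theorem act_vec (v : ℝ × ℝ) (z : Ph) (k : Fin 2 → ℤ) :
    S.P.act v (z + vec k) = S.P.act v z + vec k :=
  S.P.act_shift (fun z => S.pX z k) (fun z => S.pY z k) v z

theorem G_act (v : ℝ × ℝ) (z : Ph) : S.G (S.P.act v z) = S.G z :=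
  S.P.act_const (S.hG.differentiable (by simp)) S.h1 S.h2 v z

def IsPer (v : ℝ × ℝ) : Prop := ∃ k : Fin 2 → ℤ, S.P.act v S.z0 = S.z0 + vec k

theorem per_zero : S.IsPer 0 := ⟨0, by rw [S.P.act_zero, vec_zero, add_zero]⟩

theorem per_add {v w : ℝ × ℝ} (hv : S.IsPer v) (hw : S.IsPer w) : S.IsPer (v + w) := by
  obtain ⟨k, hk⟩ := hv
  obtain ⟨l, hl⟩ := hw
  refine ⟨k + l, ?_⟩
  rw [S.P.act_add, hl, S.act_vec, hk, vec_add, add_assoc]

theorem per_neg {v : ℝ × ℝ} (hv : S.IsPer v) : S.IsPer (-v) := by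
  obtain ⟨k, hk⟩ := hv
  refine ⟨-k, ?_⟩
  have h := S.P.act_neg v S.z0
  rw [hk, S.act_vec] at h
  rw [vec_neg, ← sub_eq_add_neg]
  exact eq_sub_of_add_eq h

/-- the lattice of periods -/
def latG : AddSubgroup (ℝ × ℝ) where
  carrier := {v | S.IsPer v}
  zero_mem' := S.per_zero
  add_mem' := S.per_add
  neg_mem' := S.per_neg

def lat : Submodule ℤ (ℝ × ℝ) := AddSubgroup.toIntSubmodule S.latG

theorem mem_lat {v : ℝ × ℝ} : v ∈ S.lat ↔ S.IsPer v := Iff.rfl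

theorem lat_discrete : ∃ δ : ℝ, 0 < δ ∧ ∀ v ∈ S.lat, ‖v‖ < δ → v = 0 := by
  obtain ⟨δ1, hδ1, h1⟩ := S.P.local_inj (S.reg S.z0 rfl).1
  have hc := (S.P.continuous_act S.z0).continuousAt (x := 0)
  rw [Metric.continuousAt_iff] at hc
  obtain ⟨δ2, hδ2, h2⟩ := hc 1 one_pos
  refine ⟨min δ1 δ2, lt_min hδ1 hδ2, fun v hv hn => ?_⟩
  obtain ⟨k, hk⟩ := hv
  have h3 := h2 (x := v) (by rw [dist_zero_right]; exact hn.trans_le (min_le_right _ _))
  rw [S.P.act_zero, hk, dist_eq_norm, add_sub_cancel_left] at h3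
  have hk0 : k = 0 := by
    by_contra hne
    linarith [one_le_norm_vec hne]
  rw [hk0, vec_zero, add_zero] at hk
  exact h1 v (hn.trans_le (min_le_left _ _)) hk

instance : DiscreteTopology S.lat := by
  obtain ⟨δ, hδ, h⟩ := S.lat_discrete
  refine discreteTopology_of_isOpen_singleton_zero ?_
  have e : ({0} : Set S.lat) = (fun v : S.lat => (v : ℝ × ℝ)) ⁻¹' Metric.ball 0 δ := by
    ext v
    simp only [mem_singleton_iff, mem_preimage, Metric.mem_ball, dist_zero_right]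
    constructor
    · rintro rfl
      simpa using hδ
    · intro hv
      exact Subtype.ext (h v v.2 hv)
  rw [e]
  exact Metric.isOpen_ball.preimage continuous_subtype_val

/-- the compact piece of the level set -/
def K : Set Ph := {z | S.G z = S.G S.z0 ∧ (∀ i, 0 ≤ z.1 i ∧ z.1 i ≤ 1)}

theorem isCompact_K : IsCompact S.K := by
  have h1 : IsClosed S.K := by
    have a : IsClosed {z : Ph | S.G z = S.G S.z0} :=
      isClosed_eq S.hG.continuous continuous_const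
    have b0 : ∀ i : Fin 2, IsClosed {z : Ph | 0 ≤ z.1 i ∧ z.1 i ≤ 1} := fun i =>
      (isClosed_le continuous_const (by fun_prop : Continuous fun z : Ph => z.1 i)).inter
        (isClosed_le (by fun_prop : Continuous fun z : Ph => z.1 i) continuous_const)
    have b : IsClosed {z : Ph | ∀ i, 0 ≤ z.1 i ∧ z.1 i ≤ 1} := by
      have e : {z : Ph | ∀ i, 0 ≤ z.1 i ∧ z.1 i ≤ 1} = ⋂ i, {z : Ph | 0 ≤ z.1 i ∧ z.1 i ≤ 1} := by
        ext z; simp
      rw [e]
      exact isClosed_iInter b0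
    exact a.inter b
  refine Metric.isCompact_of_isClosed_isBounded h1 ?_
  rw [isBounded_iff_forall_norm_le]
  refine ⟨max 1 S.R, ?_⟩
  rintro z ⟨hz1, hz2⟩
  rw [Prod.norm_def]
  refine max_le_max ?_ (S.hR z hz1)
  rw [pi_norm_le_iff_of_nonneg zero_le_one]
  intro i
  rw [Real.norm_eq_abs, abs_le]
  exact ⟨by linarith [(hz2 i).1], (hz2 i).2⟩

theorem exists_rep (z : Ph) (hz : S.G z = S.G S.z0) : ∃ k, z + vec k ∈ S.K := by
  refine ⟨fun i => -⌊z.1 i⌋, ?_, fun i => ?_⟩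
  · rw [S.pG]; exact hz
  · have e : (z + vec fun i => -⌊z.1 i⌋).1 i = Int.fract (z.1 i) := by
      simp only [vec, Prod.fst_add, Pi.add_apply, Int.cast_neg]
      rw [← sub_eq_add_neg]
      rfl
    rw [e]
    exact ⟨Int.fract_nonneg _, (Int.fract_lt_one _).le⟩

theorem cocompact : ∃ ρ : ℝ, ∀ v : ℝ × ℝ, ∃ l ∈ S.lat, ‖v - l‖ ≤ ρ := by
  by_contra hcon
  push Not at hcon
  choose v hv using fun n : ℕ => hcon (n : ℝ)
  have hrep := fun n => S.exists_rep (S.P.act (v n) S.z0) (S.G_act _ _)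
  choose k hk using hrep
  obtain ⟨y, hy, φ, hφ, hlim⟩ := S.isCompact_K.tendsto_subseq hk
  obtain ⟨hi, hs⟩ := S.reg y hy.1
  obtain ⟨ε, hε, h1⟩ := S.P.local_orbit S.hG S.h1 S.h2 (by simp) hi hs one_pos
  rw [Metric.tendsto_atTop] at hlim
  obtain ⟨N, hN⟩ := hlim ε hε
  have key : ∀ n, N ≤ n → ∃ w : ℝ × ℝ, ‖w‖ < 1 ∧
      S.P.act (v (φ n)) S.z0 + vec (k (φ n)) = S.P.act w y := by
    intro n hn
    refine h1 _ (hN n hn) ?_
    rw [(hk (φ n)).1, hy.1]
  obtain ⟨w0, hw0, e0⟩ := key N le_rfl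
  obtain ⟨M, hM⟩ := exists_nat_ge (2 + ‖v (φ N)‖)
  set n := max N M with hn
  obtain ⟨w, hw, e1⟩ := key n (le_max_left _ _)
  have hl : v (φ n) - w + w0 - v (φ N) ∈ S.lat := by
    refine ⟨k (φ N) - k (φ n), ?_⟩
    have f1 : y = S.P.act (-w0) (S.P.act (v (φ N)) S.z0) + vec (k (φ N)) := by
      rw [← S.act_vec, e0, S.P.act_neg]
    have f2 : y = S.P.act (-w) (S.P.act (v (φ n)) S.z0) + vec (k (φ n)) := by
      rw [← S.act_vec, e1, S.P.act_neg]
    have f3 : S.P.act (-w) (S.P.act (v (φ n)) S.z0) =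
        S.P.act (-w0) (S.P.act (v (φ N)) S.z0) + vec (k (φ N) - k (φ n)) := by
      rw [sub_eq_add_neg (k (φ N)), vec_add, vec_neg, ← add_assoc, ← f1]
      rw [← sub_eq_add_neg]
      exact eq_sub_of_add_eq f2.symm
    have e3 : v (φ n) - w + w0 - v (φ N) = -(v (φ N)) + (w0 + (-w + v (φ n))) := by abel
    rw [e3, S.P.act_add, S.P.act_add, S.P.act_add, f3, S.act_vec]
    have f4 := S.P.act_neg (-w0) (S.P.act (v (φ N)) S.z0)
    rw [neg_neg] at f4
    rw [f4, S.act_vec, S.P.act_neg]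
  have h2 := hv (φ n) _ hl
  have e4 : v (φ n) - (v (φ n) - w + w0 - v (φ N)) = w - w0 + v (φ N) := by abel
  rw [e4] at h2
  have h3 : ‖w - w0 + v (φ N)‖ ≤ ‖w‖ + ‖w0‖ + ‖v (φ N)‖ :=
    (norm_add_le _ _).trans (by gcongr; exact norm_sub_le _ _)
  have h4 : (M : ℝ) ≤ (φ n : ℝ) := by
    exact_mod_cast (le_max_right N M).trans (hφ.id_le n)
  linarith

theorem span_top : Submodule.span ℝ (S.lat : Set (ℝ × ℝ)) = ⊤ := by
  by_contra hne
  obtain ⟨f, hf, hle⟩ := Submodule.exists_le_ker_of_lt_top _ (lt_top_iff_ne_top.2 hne)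
  obtain ⟨ρ, hρ⟩ := S.cocompact
  set f' : ℝ × ℝ →L[ℝ] ℝ := LinearMap.toContinuousLinearMap f with hf'
  have hff : ∀ v, f' v = f v := fun v => rfl
  obtain ⟨v, hv⟩ : ∃ v, f v ≠ 0 := by
    by_contra hc
    push Not at hc
    exact hf (LinearMap.ext hc)
  have hb : ∀ v, |f v| ≤ ‖f'‖ * ρ := by
    intro v
    obtain ⟨l, hl, hvl⟩ := hρ v
    have h0 : f l = 0 := hle (Submodule.subset_span hl)
    have h1 := f'.le_opNorm (v - l)
    rw [hff, map_sub, h0, sub_zero, Real.norm_eq_abs] at h1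
    exact h1.trans (mul_le_mul_of_nonneg_left hvl (norm_nonneg _))
  obtain ⟨n, hn⟩ := exists_nat_gt (‖f'‖ * ρ / |f v|)
  have h2 := hb ((n : ℝ) • v)
  rw [map_smul, smul_eq_mul, abs_mul, Nat.abs_cast] at h2
  have h3 : 0 < |f v| := abs_pos.2 hv
  rw [div_lt_iff₀ h3] at hn
  linarith

instance : IsZLattice ℝ S.lat := ⟨S.span_top⟩

theorem exists_basis : ∃ (b : Fin 2 → ℝ × ℝ) (κ : Fin 2 → Fin 2 → ℤ),
    Indep (b 0) (b 1) ∧ (∀ i, S.P.act (b i) S.z0 = S.z0 + vec (κ i)) ∧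
    ∀ v, S.IsPer v → ∃ n : Fin 2 → ℤ, v = (n 0 : ℝ) • b 0 + (n 1 : ℝ) • b 1 := by
  have hfr : Module.finrank ℤ S.lat = 2 := by
    rw [ZLattice.rank ℝ S.lat]; simp
  let b := Module.finBasisOfFinrankEq ℤ S.lat hfr
  have hper : ∀ i, S.IsPer (b i : ℝ × ℝ) := fun i => (b i).2
  choose κ hκ using hper
  refine ⟨fun i => (b i : ℝ × ℝ), κ, ?_, hκ, ?_⟩
  · intro a c h
    have hli := (b.ofZLatticeBasis ℝ S.lat).linearIndependent
    rw [Fintype.linearIndependent_iff] at hli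
    have := hli ![a, c] (by simpa [Fin.sum_univ_two] using h)
    exact ⟨by simpa using this 0, by simpa using this 1⟩
  · intro v hv
    have := b.sum_repr ⟨v, hv⟩
    rw [Fin.sum_univ_two] at this
    refine ⟨fun i => b.repr ⟨v, hv⟩ i, ?_⟩
    have h2 := congrArg Subtype.val this
    simp only [Submodule.coe_add, Submodule.coe_smul] at h2
    refine h2.symm.trans ?_
    simp only [Int.cast_smul_eq_zsmul]

end Sys

end Pool.Agent.TH309.LA
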