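import Pool.Agent.TH309.LA.Flow

/-! Local structure of the orbits on regular level sets. -/

set_option autoImplicit false

open Set Filter Topology
open scoped ContDiff

namespace Pool.Agent.TH309.LA

variable {E : Type*} [NormedAddCommGroup E] [NormedSpace ℝ E] [FiniteDimensional ℝ E]

/-- independence of two vectors, spelled out -/
def Indep (x y : E) : Prop := ∀ a b : ℝ, a • x + b • y = 0 → a = 0 ∧ b = 0

namespace Pair

variable (P : Pair E)

theorem local_inj {z : E} (hi : Indep (P.X z) (P.Y z)) :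
    ∃ δ : ℝ, 0 < δ ∧ ∀ v : ℝ × ℝ, ‖v‖ < δ → P.act v z = z → v = 0 := by
  have hinj : Function.Injective (P.dact z) := by
    rw [injective_iff_map_eq_zero]
    intro v hv
    rw [P.dact_apply] at hv
    obtain ⟨h1, h2⟩ := hi _ _ hv
    exact Prod.ext h1 h2
  obtain ⟨M, hM⟩ := (P.dact z).toLinearMap.exists_leftInverse_of_injective
    (LinearMap.ker_eq_bot.2 hinj)
  set M' : E →L[ℝ] ℝ × ℝ := LinearMap.toContinuousLinearMap M with hM'
  have hMM : M'.comp (P.dact z) = ContinuousLinearMap.id ℝ (ℝ × ℝ) := by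
    refine ContinuousLinearMap.ext fun v => ?_
    exact LinearMap.congr_fun hM v
  have hs : HasStrictFDerivAt (fun v => M' (P.act v z)) (ContinuousLinearMap.id ℝ (ℝ × ℝ)) 0 := by
    have h1 := P.hasStrictFDerivAt_act z 0
    rw [P.act_zero] at h1
    rw [← hMM]
    exact M'.hasStrictFDerivAt.comp (0 : ℝ × ℝ) h1
  have h2 := hs.isLittleO.def (c := 1 / 2) (by norm_num)
  rw [show ((0 : ℝ × ℝ), (0 : ℝ × ℝ)) = 0 from rfl, Metric.eventually_nhds_iff_ball] at h2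
  obtain ⟨δ, hδ, h3⟩ := h2
  refine ⟨δ, hδ, fun v hv hz => ?_⟩
  have h4 := h3 (v, 0) (by
    rw [Metric.mem_ball, dist_zero_right, Prod.norm_mk, norm_zero]
    exact max_lt hv hδ)
  simp only [ContinuousLinearMap.id_apply, sub_zero] at h4
  rw [hz, P.act_zero, sub_self, zero_sub, norm_neg] at h4
  have : ‖v‖ = 0 := by linarith [norm_nonneg v]
  exact norm_eq_zero.1 this

theorem local_orbit {G : E → ℝ × ℝ} (hG : ContDiff ℝ ∞ G) (h1 : ∀ z, fderiv ℝ G z (P.X z) = 0)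
    (h2 : ∀ z, fderiv ℝ G z (P.Y z) = 0) (hfin : Module.finrank ℝ E = 4) {z : E}
    (hi : Indep (P.X z) (P.Y z)) (hs : Function.Surjective (fderiv ℝ G z)) {δ : ℝ} (hδ : 0 < δ) :
    ∃ ε : ℝ, 0 < ε ∧ ∀ z', dist z' z < ε → G z' = G z → ∃ v : ℝ × ℝ, ‖v‖ < δ ∧ z' = P.act v z := by
  obtain ⟨N, hN⟩ := (fderiv ℝ G z).toLinearMap.exists_rightInverse_of_surjective
    (LinearMap.range_eq_top.2 hs)
  set N' : ℝ × ℝ →L[ℝ] E := LinearMap.toContinuousLinearMap N with hN'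
  have hNN : ∀ u, fderiv ℝ G z (N' u) = u := by
    intro u
    exact LinearMap.congr_fun hN u
  set D : (ℝ × ℝ) × (ℝ × ℝ) →L[ℝ] E := (P.dact z).coprod N' with hD
  have hTh : HasStrictFDerivAt (fun p : (ℝ × ℝ) × (ℝ × ℝ) => P.act p.1 z + N' p.2) D 0 := by
    have k1 : HasStrictFDerivAt (fun p : (ℝ × ℝ) × (ℝ × ℝ) => P.act p.1 z)
        ((P.dact z).comp (ContinuousLinearMap.fst ℝ (ℝ × ℝ) (ℝ × ℝ))) 0 := by
      have := P.hasStrictFDerivAt_act z 0
      rw [P.act_zero] at this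
      exact HasStrictFDerivAt.comp (g := fun v => P.act v z)
        (f := fun p : (ℝ × ℝ) × (ℝ × ℝ) => p.1) (0 : (ℝ × ℝ) × (ℝ × ℝ)) this
        hasStrictFDerivAt_fst
    have k2 : HasStrictFDerivAt (fun p : (ℝ × ℝ) × (ℝ × ℝ) => N' p.2)
        (N'.comp (ContinuousLinearMap.snd ℝ (ℝ × ℝ) (ℝ × ℝ))) 0 :=
      N'.hasStrictFDerivAt.comp (0 : (ℝ × ℝ) × (ℝ × ℝ)) hasStrictFDerivAt_snd
    have e : D = (P.dact z).comp (ContinuousLinearMap.fst ℝ (ℝ × ℝ) (ℝ × ℝ)) +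
        N'.comp (ContinuousLinearMap.snd ℝ (ℝ × ℝ) (ℝ × ℝ)) := by
      ext <;> simp [hD]
    rw [e]
    exact k1.add k2
  have hDG : ∀ p : (ℝ × ℝ) × (ℝ × ℝ), fderiv ℝ G z (D p) = p.2 := by
    intro p
    simp [hD, h1, h2, hNN]
  have hDinj : Function.Injective D := by
    rw [injective_iff_map_eq_zero]
    intro p hp
    have k1 := hDG p
    rw [hp, map_zero] at k1
    have k2 : D p = p.1.1 • P.X z + p.1.2 • P.Y z + N' p.2 := by simp [hD]
    rw [hp, ← k1, map_zero, add_zero] at k2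
    obtain ⟨k3, k4⟩ := hi _ _ k2.symm
    exact Prod.ext (Prod.ext k3 k4) k1.symm
  have hDsurj : Function.Surjective D := by
    have hf : Module.finrank ℝ ((ℝ × ℝ) × (ℝ × ℝ)) = Module.finrank ℝ E := by
      rw [hfin]; simp
    exact (LinearMap.injective_iff_surjective_of_finrank_eq_finrank (f := D.toLinearMap) hf).1
      hDinj
  have hTh0 : P.act (0 : (ℝ × ℝ) × (ℝ × ℝ)).1 z + N' (0 : (ℝ × ℝ) × (ℝ × ℝ)).2 = z := by
    simp [P.act_zero]
  have hg : HasStrictFDerivAt (fun p : (ℝ × ℝ) × (ℝ × ℝ) => G (P.act p.1 z + N' p.2))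
      (ContinuousLinearMap.snd ℝ (ℝ × ℝ) (ℝ × ℝ)) 0 := by
    have k1 : HasStrictFDerivAt G (fderiv ℝ G z)
        (P.act (0 : (ℝ × ℝ) × (ℝ × ℝ)).1 z + N' (0 : (ℝ × ℝ) × (ℝ × ℝ)).2) := by
      rw [hTh0]; exact hG.contDiffAt.hasStrictFDerivAt (by simp)
    have k2 := HasStrictFDerivAt.comp (g := G)
      (f := fun p : (ℝ × ℝ) × (ℝ × ℝ) => P.act p.1 z + N' p.2) (0 : (ℝ × ℝ) × (ℝ × ℝ)) k1 hTh
    have e : (fderiv ℝ G z).comp D = ContinuousLinearMap.snd ℝ (ℝ × ℝ) (ℝ × ℝ) := by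
      refine ContinuousLinearMap.ext fun p => ?_
      exact hDG p
    rw [← e]
    exact k2
  have hu := hg.isLittleO.def (c := 1 / 2) (by norm_num)
  rw [show ((0 : (ℝ × ℝ) × (ℝ × ℝ)), (0 : (ℝ × ℝ) × (ℝ × ℝ))) = 0 from rfl,
    Metric.eventually_nhds_iff_ball] at hu
  obtain ⟨δ1, hδ1, hu1⟩ := hu
  set r := min δ δ1 with hr
  have hrp : 0 < r := lt_min hδ hδ1
  have hmap := hTh.map_nhds_eq_of_surj (LinearMap.range_eq_top.2 hDsurj)
  rw [hTh0] at hmap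
  have hnb : (fun p : (ℝ × ℝ) × (ℝ × ℝ) => P.act p.1 z + N' p.2) '' (Metric.ball 0 r) ∈ 𝓝 z := by
    rw [← hmap]
    exact image_mem_map (Metric.ball_mem_nhds _ hrp)
  obtain ⟨ε, hε, hsub⟩ := Metric.mem_nhds_iff.1 hnb
  refine ⟨ε, hε, fun z' hz' hGz => ?_⟩
  obtain ⟨p, hp, hpz⟩ := hsub (Metric.mem_ball.2 hz')
  simp only at hpz
  have hp' : ‖p‖ < r := by simpa using hp
  have hp1 : ‖p.1‖ < r := (norm_fst_le p).trans_lt hp'
  have hp1' : ‖(p.1, (0 : ℝ × ℝ))‖ < δ1 := by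
    rw [Prod.norm_mk, norm_zero]
    exact max_lt (hp1.trans_le (min_le_right _ _)) hδ1
  have hu2 := hu1 (p, (p.1, 0)) (by
    rw [Metric.mem_ball, dist_zero_right, Prod.norm_mk]
    exact max_lt (hp'.trans_le (min_le_right _ _)) hp1')
  have hGd : Differentiable ℝ G := hG.differentiable (by simp)
  simp only [map_zero, add_zero, ContinuousLinearMap.coe_snd'] at hu2
  rw [hpz, hGz, P.act_const hGd h1 h2, sub_self, zero_sub, norm_neg] at hu2
  have e2 : p - (p.1, 0) = ((0 : ℝ × ℝ), p.2) := by ext <;> simp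
  rw [e2] at hu2
  simp only [Prod.norm_mk, norm_zero] at hu2
  rw [max_eq_right (norm_nonneg _)] at hu2
  have hp2 : p.2 = 0 := by
    have : ‖p.2‖ = 0 := by linarith [norm_nonneg p.2]
    exact norm_eq_zero.1 this
  refine ⟨p.1, hp1.trans_le (min_le_left _ _), ?_⟩
  rw [← hpz, hp2, map_zero, add_zero]

end Pair

end Pool.Agent.TH309.LA
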