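import Pool.Agent.TH309.LA.Ham

/-! The Liouville-Arnold theorem for systems on the cotangent bundle of the torus. -/

set_option autoImplicit false

open Set Filter Topology
open scoped ContDiff

namespace Pool.Agent.TH309.LA

/-- a Hamiltonian with a second integral -/
structure IntSys where
  H : Ph → ℝ
  F : Ph → ℝ
  hH : ContDiff ℝ ∞ H
  hF : ContDiff ℝ ∞ F
  pH : ∀ z k, H (z + vec k) = H z
  pF : ∀ z k, F (z + vec k) = F z
  comm : ∀ z, fderiv ℝ H z (ham F z) = 0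
  proper : ∀ c, ∃ R, ∀ z, H z ≤ c → ‖z.2‖ ≤ R

namespace IntSys

variable (I : IntSys)

theorem dHH (z : Ph) : fderiv ℝ I.H z (ham I.H z) = 0 := by
  have := Jm_skew (fderiv ℝ I.H z) (fderiv ℝ I.H z)
  unfold ham
  linarith

theorem dFF (z : Ph) : fderiv ℝ I.F z (ham I.F z) = 0 := by
  have := Jm_skew (fderiv ℝ I.F z) (fderiv ℝ I.F z)
  unfold ham
  linarith

theorem dFH (z : Ph) : fderiv ℝ I.F z (ham I.H z) = 0 := by
  have := Jm_skew (fderiv ℝ I.H z) (fderiv ℝ I.F z)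
  have h := I.comm z
  unfold ham at *
  linarith

def bump (h : ℝ) : ContDiffBump h := ⟨1, 2, one_pos, one_lt_two⟩

theorem bump_one {h t : ℝ} (ht : |t - h| ≤ 1) : bump h t = 1 :=
  (bump h).one_of_mem_closedBall (by rw [Metric.mem_closedBall, Real.dist_eq]; exact ht)

theorem bump_zero {h t : ℝ} (ht : 2 ≤ |t - h|) : bump h t = 0 :=
  (bump h).zero_of_le_dist (by rw [Real.dist_eq]; exact ht)

noncomputable def cut (h : ℝ) (z : Ph) : ℝ := bump h (I.H z)

theorem contDiff_cut (h : ℝ) : ContDiff ℝ ∞ (I.cut h) := (bump h).contDiff.comp I.hH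

theorem cut_per (h : ℝ) (z : Ph) (k : Fin 2 → ℤ) : I.cut h (z + vec k) = I.cut h z := by
  unfold cut; rw [I.pH]

theorem cut_supp (h : ℝ) : ∃ R : ℝ, ∀ z : Ph, R < ‖z.2‖ → I.cut h z = 0 := by
  obtain ⟨R, hR⟩ := I.proper (h + 2)
  refine ⟨R, fun z hz => ?_⟩
  have h1 : h + 2 < I.H z := by
    by_contra hc
    exact absurd (hR z (not_lt.1 hc)) (not_le.2 hz)
  refine bump_zero ?_
  rw [abs_of_pos (by linarith)]
  linarith

theorem dcut (h : ℝ) (z v : Ph) (hv : fderiv ℝ I.H z v = 0) : fderiv ℝ (I.cut h) z v = 0 := by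
  have h1 : HasFDerivAt I.H (fderiv ℝ I.H z) z := (I.hH.differentiable (by simp) z).hasFDerivAt
  have h2 : HasDerivAt (bump h) (deriv (bump h) (I.H z)) (I.H z) :=
    (((bump h).contDiff (n := 1)).differentiable (by simp) _).hasDerivAt
  have h3 : fderiv ℝ (I.cut h) z = deriv (bump h) (I.H z) • fderiv ℝ I.H z :=
    (h2.comp_hasFDerivAt z h1).fderiv
  rw [h3]
  simp [hv]

noncomputable def cX (h : ℝ) (z : Ph) : Ph := I.cut h z • ham I.H z
noncomputable def cY (h : ℝ) (z : Ph) : Ph := I.cut h z • ham I.F z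

theorem contDiff_cX (h : ℝ) : ContDiff ℝ ∞ (I.cX h) := (I.contDiff_cut h).smul (contDiff_ham I.hH)
theorem contDiff_cY (h : ℝ) : ContDiff ℝ ∞ (I.cY h) := (I.contDiff_cut h).smul (contDiff_ham I.hF)

theorem nice_cX (h : ℝ) : Nice (I.cX h) := by
  obtain ⟨R, hR⟩ := I.cut_supp h
  refine ⟨fun z k => ?_, R, fun z hz => ?_⟩
  · unfold cX; rw [I.cut_per, ham_periodic I.pH]
  · unfold cX; rw [hR z hz, zero_smul]

theorem nice_cY (h : ℝ) : Nice (I.cY h) := by
  obtain ⟨R, hR⟩ := I.cut_supp h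
  refine ⟨fun z k => ?_, R, fun z hz => ?_⟩
  · unfold cY; rw [I.cut_per, ham_periodic I.pF]
  · unfold cY; rw [hR z hz, zero_smul]

theorem fderiv_cX (h : ℝ) (z w : Ph) (hw : fderiv ℝ (I.cut h) z w = 0) :
    fderiv ℝ (I.cX h) z w = I.cut h z • fderiv ℝ (ham I.H) z w := by
  have h1 : HasFDerivAt (I.cut h) (fderiv ℝ (I.cut h) z) z :=
    ((I.contDiff_cut h).differentiable (by simp) z).hasFDerivAt
  have h2 : HasFDerivAt (ham I.H) (fderiv ℝ (ham I.H) z) z :=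
    ((contDiff_ham I.hH).differentiable (by simp) z).hasFDerivAt
  have h3 : fderiv ℝ (I.cX h) z = _ := (h1.smul h2).fderiv
  rw [h3]
  simp [hw]

theorem fderiv_cY (h : ℝ) (z w : Ph) (hw : fderiv ℝ (I.cut h) z w = 0) :
    fderiv ℝ (I.cY h) z w = I.cut h z • fderiv ℝ (ham I.F) z w := by
  have h1 : HasFDerivAt (I.cut h) (fderiv ℝ (I.cut h) z) z :=
    ((I.contDiff_cut h).differentiable (by simp) z).hasFDerivAt
  have h2 : HasFDerivAt (ham I.F) (fderiv ℝ (ham I.F) z) z :=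
    ((contDiff_ham I.hF).differentiable (by simp) z).hasFDerivAt
  have h3 : fderiv ℝ (I.cY h) z = _ := (h1.smul h2).fderiv
  rw [h3]
  simp [hw]

theorem cut_comm (h : ℝ) (z : Ph) :
    fderiv ℝ (I.cX h) z (I.cY h z) = fderiv ℝ (I.cY h) z (I.cX h z) := by
  have h1 : fderiv ℝ (I.cut h) z (I.cY h z) = 0 := by
    apply I.dcut
    unfold cY
    rw [map_smul, I.comm, smul_zero]
  have h2 : fderiv ℝ (I.cut h) z (I.cX h z) = 0 := by
    apply I.dcut
    unfold cX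
    rw [map_smul, I.dHH, smul_zero]
  rw [I.fderiv_cX h z _ h1, I.fderiv_cY h z _ h2]
  unfold cX cY
  rw [map_smul, map_smul, ham_comm I.hH I.hF I.comm z]

theorem exists_pair (h : ℝ) : ∃ P : Pair Ph, P.X = I.cX h ∧ P.Y = I.cY h := by
  obtain ⟨KX, hKX⟩ := (I.nice_cX h).lipschitz (I.contDiff_cX h)
  obtain ⟨BX, hBX⟩ := (I.nice_cX h).bounded (I.contDiff_cX h).continuous
  obtain ⟨KY, hKY⟩ := (I.nice_cY h).lipschitz (I.contDiff_cY h)
  obtain ⟨BY, hBY⟩ := (I.nice_cY h).bounded (I.contDiff_cY h).continuous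
  obtain ⟨CY, hCY⟩ := (I.nice_cY h).fderiv.lipschitz
    ((I.contDiff_cY h).fderiv_right (m := ∞) (by norm_num))
  exact ⟨⟨I.cX h, I.cY h, I.contDiff_cX h, I.contDiff_cY h, KX, BX, KY, BY, CY, hKX, hBX, hKY, hBY,
    hCY, I.cut_comm h⟩, rfl, rfl⟩

noncomputable def pr (h : ℝ) : Pair Ph := (I.exists_pair h).choose
theorem pr_X (h : ℝ) : (I.pr h).X = I.cX h := (I.exists_pair h).choose_spec.1
theorem pr_Y (h : ℝ) : (I.pr h).Y = I.cY h := (I.exists_pair h).choose_spec.2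

/-- the energy-momentum map -/
def G (z : Ph) : ℝ × ℝ := (I.H z, I.F z)

theorem contDiff_G : ContDiff ℝ ∞ I.G := I.hH.prodMk I.hF

theorem fderiv_G (z : Ph) : fderiv ℝ I.G z = (fderiv ℝ I.H z).prod (fderiv ℝ I.F z) :=
  ((I.hH.differentiable (by simp) z).hasFDerivAt.prodMk
    (I.hF.differentiable (by simp) z).hasFDerivAt).fderiv

theorem G_per (z : Ph) (k : Fin 2 → ℤ) : I.G (z + vec k) = I.G z := by
  unfold G; rw [I.pH, I.pF]

theorem dGX (h : ℝ) (z : Ph) : fderiv ℝ I.G z ((I.pr h).X z) = 0 := by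
  rw [I.fderiv_G, I.pr_X]
  unfold cX
  rw [map_smul]
  have : ((fderiv ℝ I.H z).prod (fderiv ℝ I.F z)) (ham I.H z) = 0 := by
    simp [I.dHH, I.dFH]
  rw [this, smul_zero]

theorem dGY (h : ℝ) (z : Ph) : fderiv ℝ I.G z ((I.pr h).Y z) = 0 := by
  rw [I.fderiv_G, I.pr_Y]
  unfold cY
  rw [map_smul]
  have : ((fderiv ℝ I.H z).prod (fderiv ℝ I.F z)) (ham I.F z) = 0 := by
    simp [I.comm, I.dFF]
  rw [this, smul_zero]

/-- regular points -/
def Reg (z : Ph) : Prop := Indep (fderiv ℝ I.H z) (fderiv ℝ I.F z)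

theorem Reg.surj {I : IntSys} {z : Ph} (h : I.Reg z) : Function.Surjective (fderiv ℝ I.G z) := by
  rw [I.fderiv_G]
  set D := (fderiv ℝ I.H z).prod (fderiv ℝ I.F z) with hD
  by_contra hc
  have hne : D.toLinearMap.range ≠ ⊤ := fun h => hc (LinearMap.range_eq_top.1 h)
  obtain ⟨f, hf, hle⟩ := Submodule.exists_le_ker_of_lt_top _ (lt_top_iff_ne_top.2 hne)
  have h1 : f (1, 0) • fderiv ℝ I.H z + f (0, 1) • fderiv ℝ I.F z = 0 := by
    refine ContinuousLinearMap.ext fun v => ?_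
    have h2 : f (D v) = 0 := hle ⟨v, rfl⟩
    have h3 : D v = fderiv ℝ I.H z v • ((1 : ℝ), (0 : ℝ)) + fderiv ℝ I.F z v • ((0 : ℝ), (1 : ℝ)) := by
      ext <;> simp [hD]
    rw [h3, map_add, map_smul, map_smul] at h2
    simp only [add_apply, smul_apply, smul_eq_mul, zero_apply] at h2 ⊢
    linarith
  obtain ⟨h4, h5⟩ := h _ _ h1
  apply hf
  refine LinearMap.ext fun v => ?_
  have h6 : v = v.1 • ((1 : ℝ), (0 : ℝ)) + v.2 • ((0 : ℝ), (1 : ℝ)) := by ext <;> simp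
  rw [h6, map_add, map_smul, map_smul, h4, h5]
  simp

theorem Reg.indep {I : IntSys} {z : Ph} (h : I.Reg z) : Indep (ham I.H z) (ham I.F z) := by
  intro a b hab
  apply h a b
  apply Jm_inj
  rw [map_add, map_smul, map_smul]
  exact hab

theorem pr_X_eq {h : ℝ} {z : Ph} (hz : |I.H z - h| ≤ 1) : (I.pr h).X z = ham I.H z := by
  rw [I.pr_X]
  unfold cX cut
  rw [bump_one hz, one_smul]

theorem pr_Y_eq {h : ℝ} {z : Ph} (hz : |I.H z - h| ≤ 1) : (I.pr h).Y z = ham I.F z := by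
  rw [I.pr_Y]
  unfold cY cut
  rw [bump_one hz, one_smul]

/-- the points all of whose level set is regular -/
def RegLevel : Set Ph := {z | ∀ z', I.H z' = I.H z → I.F z' = I.F z → I.Reg z'}

/-- the system attached to a point with regular level set -/
noncomputable def sys (z : Ph) (hz : z ∈ I.RegLevel) : Sys where
  P := I.pr (I.H z)
  G := I.G
  hG := I.contDiff_G
  pX := fun w k => by rw [I.pr_X]; exact (I.nice_cX _).1 w k
  pY := fun w k => by rw [I.pr_Y]; exact (I.nice_cY _).1 w k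
  pG := I.G_per
  h1 := I.dGX _
  h2 := I.dGY _
  z0 := z
  reg := fun w hw => by
    have h1 : I.H w = I.H z := congrArg Prod.fst hw
    have h2 : I.F w = I.F z := congrArg Prod.snd hw
    have h3 := hz w h1 h2
    have h4 : |I.H w - I.H z| ≤ 1 := by rw [h1]; simp
    rw [I.pr_X_eq h4, I.pr_Y_eq h4]
    exact ⟨h3.indep, h3.surj⟩
  R := (I.proper (I.H z)).choose
  hR := fun w hw => (I.proper (I.H z)).choose_spec w (le_of_eq (congrArg Prod.fst hw))

/-- the orbit of the joint action, and its translates -/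
def orb (z : Ph) : Set Ph := {w | ∃ v k, w = (I.pr (I.H z)).act v z + vec k}

theorem G_act (h : ℝ) (v : ℝ × ℝ) (z : Ph) : I.G ((I.pr h).act v z) = I.G z :=
  (I.pr h).act_const (I.contDiff_G.differentiable (by simp)) (I.dGX h) (I.dGY h) v z

theorem act_vec (h : ℝ) (v : ℝ × ℝ) (z : Ph) (k : Fin 2 → ℤ) :
    (I.pr h).act v (z + vec k) = (I.pr h).act v z + vec k :=
  (I.pr h).act_shift (fun w => by rw [I.pr_X]; exact (I.nice_cX _).1 w k)
    (fun w => by rw [I.pr_Y]; exact (I.nice_cY _).1 w k) v z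

theorem orb_G {z w : Ph} (h : w ∈ I.orb z) : I.G w = I.G z := by
  obtain ⟨v, k, rfl⟩ := h
  rw [I.G_per, I.G_act]

theorem mem_orb (z : Ph) : z ∈ I.orb z :=
  ⟨0, 0, by rw [(I.pr _).act_zero, vec_zero, add_zero]⟩

theorem orb_eq {z w : Ph} (h : w ∈ I.orb z) : I.orb w = I.orb z := by
  have hH : I.H w = I.H z := congrArg Prod.fst (I.orb_G h)
  obtain ⟨v, k, rfl⟩ := h
  ext y
  constructor
  · rintro ⟨v', k', rfl⟩
    refine ⟨v' + v, k + k', ?_⟩
    rw [hH, I.act_vec, (I.pr _).act_add, vec_add, add_assoc]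
  · rintro ⟨v', k', rfl⟩
    refine ⟨v' - v, k' - k, ?_⟩
    rw [hH, I.act_vec, ← (I.pr _).act_add, sub_add_cancel, sub_eq_add_neg, vec_add, vec_neg]
    abel

theorem orb_disjoint {z w : Ph} (h : (I.orb z ∩ I.orb w).Nonempty) : I.orb z = I.orb w := by
  obtain ⟨y, hy1, hy2⟩ := h
  rw [← I.orb_eq hy1, ← I.orb_eq hy2]

/-- **Liouville-Arnold.** -/
theorem torus (z : Ph) (hz : z ∈ I.RegLevel) :
    ∃ (Φ : (Fin 2 → ℝ) → Ph) (L : Matrix (Fin 2) (Fin 2) ℤ), ContDiff ℝ ∞ Φ ∧ Φ 0 = z ∧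
      (∀ (θ : Fin 2 → ℝ) (k : Fin 2 → ℤ), Φ (θ + fun i => (k i : ℝ)) = Φ θ + vec (L.mulVec k)) ∧
      (∀ (θ θ' : Fin 2 → ℝ) (k : Fin 2 → ℤ), Φ θ' = Φ θ + vec k →
        ∃ l : Fin 2 → ℤ, θ' = θ + fun i => (l i : ℝ)) ∧
      (∀ θ, Function.Injective (fderiv ℝ Φ θ)) ∧
      (∀ θ v w, symp (fderiv ℝ Φ θ v) (fderiv ℝ Φ θ w) = 0) ∧
      (∃ w₀ : Fin 2 → ℝ, ∀ θ, ham I.H (Φ θ) = fderiv ℝ Φ θ w₀) ∧
      I.orb z = {w | ∃ θ k, w = Φ θ + vec k} := by
  set S := I.sys z hz with hS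
  set P := I.pr (I.H z) with hP
  obtain ⟨b, κ, hind, hb, hper⟩ := S.exists_basis
  have hb' : ∀ i, P.act (b i) z = z + vec (κ i) := hb
  have hper' : ∀ (v : ℝ × ℝ) (k : Fin 2 → ℤ), P.act v z = z + vec k →
      ∃ n : Fin 2 → ℤ, v = (n 0 : ℝ) • b 0 + (n 1 : ℝ) • b 1 := fun v k hv => hper v ⟨k, hv⟩
  -- the linear change of coordinates
  set ℓ : (Fin 2 → ℝ) →L[ℝ] ℝ × ℝ :=
    (ContinuousLinearMap.proj 0 : (Fin 2 → ℝ) →L[ℝ] ℝ).smulRight (b 0) +
    (ContinuousLinearMap.proj 1 : (Fin 2 → ℝ) →L[ℝ] ℝ).smulRight (b 1) with hℓ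
  have hℓa : ∀ θ, ℓ θ = θ 0 • b 0 + θ 1 • b 1 := fun θ => by simp [hℓ]
  have hℓinj : Function.Injective ℓ := by
    rw [injective_iff_map_eq_zero]
    intro θ hθ
    rw [hℓa] at hθ
    obtain ⟨h0, h1⟩ := hind _ _ hθ
    funext i
    fin_cases i
    · exact h0
    · exact h1
  have hℓsurj : Function.Surjective ℓ :=
    (LinearMap.injective_iff_surjective_of_finrank_eq_finrank (f := ℓ.toLinearMap) (by simp)).1 hℓinj
  have hvec : ∀ (w : Ph) (k : Fin 2 → ℤ) (v : ℝ × ℝ), P.act v (w + vec k) = P.act v w + vec k :=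
    fun w k v => I.act_vec _ v w k
  -- integer multiples of the periods
  have hnat : ∀ (i : Fin 2) (n : ℤ), P.act ((n : ℝ) • b i) z = z + vec (n • κ i) := by
    intro i n
    have hpos : ∀ n : ℕ, P.act ((n : ℝ) • b i) z = z + vec (n • κ i) := by
      intro n
      induction n with
      | zero => simp [P.act_zero, vec_zero]
      | succ n ih =>
        rw [Nat.cast_succ, add_smul, one_smul, P.act_add, hb', hvec, ih, succ_nsmul, vec_add,
          add_assoc]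
    obtain ⟨m, rfl | rfl⟩ := n.eq_nat_or_neg
    · have := hpos m
      simpa using this
    · have h1 := P.act_neg ((m : ℝ) • b i) z
      rw [hpos m, hvec] at h1
      have h2 : P.act (-((m : ℝ) • b i)) z = z - vec (m • κ i) := eq_sub_of_add_eq h1
      have e : (((-(m : ℤ)) : ℤ) : ℝ) • b i = -((m : ℝ) • b i) := by push_cast; rw [neg_smul]
      rw [e, h2, neg_smul, vec_neg, sub_eq_add_neg]
      simp
  refine ⟨fun θ => P.act (ℓ θ) z, Matrix.of fun i j => κ j i, ?_, ?_, ?_, ?_, ?_, ?_, ?_, ?_⟩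
  · exact (P.contDiff_act z).comp ℓ.contDiff
  · simp only [map_zero, P.act_zero]
  · intro θ k
    have e1 : ℓ (θ + fun i => (k i : ℝ)) = ℓ θ + ((k 0 : ℝ) • b 0 + (k 1 : ℝ) • b 1) := by
      rw [map_add, hℓa (fun i => (k i : ℝ))]
    simp only [e1]
    rw [P.act_add, P.act_add, hnat, hvec, hnat, hvec, hvec]
    have e2 : vec (k 0 • κ 0) + vec (k 1 • κ 1) =
        vec ((Matrix.of fun i j => κ j i).mulVec k) := by
      rw [← vec_add]
      congr 1
      funext i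
      simp only [Pi.add_apply, Pi.smul_apply, smul_eq_mul, Matrix.mulVec, dotProduct,
        Fin.sum_univ_two, Matrix.of_apply]
      ring
    rw [← e2]
    abel
  · intro θ θ' k h
    have h1 : P.act (ℓ (θ' - θ)) z = z + vec k := by
      rw [map_sub, sub_eq_neg_add, P.act_add]
      simp only at h
      rw [h, hvec, P.act_neg]
    obtain ⟨n, hn⟩ := hper' _ _ h1
    refine ⟨n, ?_⟩
    have h2 : ℓ (θ' - θ) = ℓ (fun i => (n i : ℝ)) := by rw [hn, hℓa]
    have h3 := hℓinj h2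
    rw [← h3]; abel
  · intro θ
    have hd : HasFDerivAt (fun θ => P.act (ℓ θ) z) ((P.dact (P.act (ℓ θ) z)).comp ℓ) θ :=
      HasFDerivAt.comp (g := fun v => P.act v z) (f := ℓ) θ
        (P.hasStrictFDerivAt_act z (ℓ θ)).hasFDerivAt ℓ.hasFDerivAt
    rw [hd.fderiv]
    have hi := (S.reg (P.act (ℓ θ) z) (I.G_act _ _ _)).1
    have hj : Function.Injective (P.dact (P.act (ℓ θ) z)) := by
      rw [injective_iff_map_eq_zero]
      intro v hv
      rw [P.dact_apply] at hv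
      obtain ⟨h1, h2⟩ := hi _ _ hv
      exact Prod.ext h1 h2
    exact hj.comp hℓinj
  · intro θ v w
    have hd : HasFDerivAt (fun θ => P.act (ℓ θ) z) ((P.dact (P.act (ℓ θ) z)).comp ℓ) θ :=
      HasFDerivAt.comp (g := fun v => P.act v z) (f := ℓ) θ
        (P.hasStrictFDerivAt_act z (ℓ θ)).hasFDerivAt ℓ.hasFDerivAt
    rw [hd.fderiv]
    simp only [ContinuousLinearMap.comp_apply, P.dact_apply]
    set y := P.act (ℓ θ) z with hy
    have hyG : I.G y = I.G z := I.G_act _ _ _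
    have hyH : |I.H y - I.H z| ≤ 1 := by
      have : I.H y = I.H z := congrArg Prod.fst hyG
      rw [this]; simp
    have eX : P.X y = ham I.H y := I.pr_X_eq hyH
    have eY : P.Y y = ham I.F y := I.pr_Y_eq hyH
    rw [eX, eY]
    have s1 : ∀ x : Ph, symp (ham I.H y) x = fderiv ℝ I.H y x := fun x => symp_Jm _ _
    have s2 : ∀ x : Ph, symp (ham I.F y) x = fderiv ℝ I.F y x := fun x => symp_Jm _ _
    have s3 : ∀ (a c : ℝ) (x y' u : Ph), symp (a • x + c • y') u = a * symp x u + c * symp y' u := by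
      intro a c x y' u
      simp only [symp, Fin.sum_univ_two, Prod.fst_add, Prod.snd_add, Prod.smul_fst, Prod.smul_snd,
        Pi.add_apply, Pi.smul_apply, smul_eq_mul]
      ring
    rw [s3, s1, s2, map_add, map_smul, map_smul, map_add, map_smul, map_smul, I.dHH, I.comm,
      I.dFH, I.dFF]
    simp
  · obtain ⟨w₀, hw₀⟩ := hℓsurj (1, 0)
    refine ⟨w₀, fun θ => ?_⟩
    have hd : HasFDerivAt (fun θ => P.act (ℓ θ) z) ((P.dact (P.act (ℓ θ) z)).comp ℓ) θ :=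
      HasFDerivAt.comp (g := fun v => P.act v z) (f := ℓ) θ
        (P.hasStrictFDerivAt_act z (ℓ θ)).hasFDerivAt ℓ.hasFDerivAt
    rw [hd.fderiv, ContinuousLinearMap.comp_apply, hw₀, P.dact_apply]
    have hyG : I.G (P.act (ℓ θ) z) = I.G z := I.G_act _ _ _
    have hyH : |I.H (P.act (ℓ θ) z) - I.H z| ≤ 1 := by
      have : I.H (P.act (ℓ θ) z) = I.H z := congrArg Prod.fst hyG
      rw [this]; simp
    rw [I.pr_X_eq hyH]
    simp
  · ext w
    constructor
    · rintro ⟨v, k, rfl⟩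
      obtain ⟨θ, hθ⟩ := hℓsurj v
      exact ⟨θ, k, by simp only [hθ]; rfl⟩
    · rintro ⟨θ, k, rfl⟩
      exact ⟨ℓ θ, k, rfl⟩

end IntSys

end Pool.Agent.TH309.LA
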