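import Pool.Agent.TH309.LA.Crit
import Pool.Agent.TH309.LA.Torus
import Pool.Agent.TH309.Tor.Vec

/-! The integrable system given by a solution with small waves. -/

set_option autoImplicit false

open Set Filter Topology
open scoped ContDiff

namespace Pool.Agent.TH309.LA

open Pool.Agent.TH309.Tor

theorem line {E F : Type*} [NormedAddCommGroup E] [NormedSpace ℝ E] [NormedAddCommGroup F]
    [NormedSpace ℝ F] {G : E → F} {z : E} (h : DifferentiableAt ℝ G z) (v : E) :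
    HasDerivAt (fun t : ℝ => G (z + t • v)) (fderiv ℝ G z v) 0 := by
  have h1 : HasDerivAt (fun t : ℝ => z + t • v) v 0 := by
    simpa using ((hasDerivAt_id (0 : ℝ)).smul_const v).const_add z
  have h2 : HasFDerivAt G (fderiv ℝ G z) (z + (0 : ℝ) • v) := by
    simpa using h.hasFDerivAt
  exact h2.comp_hasDerivAt (0 : ℝ) h1

/-- the base point in the plane of the construction -/
def U (x : Fin 2 → ℝ) : ℝ × ℝ := (60 * x 0, 60 * x 1)

theorem V2_fderiv {f : ℝ × ℝ → ℝ} (hf : Differentiable ℝ f) (x v : Fin 2 → ℝ) :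
    fderiv ℝ (V2 f) x v = 60 * fderiv ℝ f (U x) (v 0, v 1) := by
  rw [(V2_deriv hf x).fderiv, fderiv_dir f (U x) (v 0, v 1)]
  simp [U]
  ring

noncomputable def HH (P : Pack) (z : Ph) : ℝ := V2 P.S z.1 / 3 * qT (z.2 0) (z.2 1)

noncomputable def FF (P : Pack) (z : Ph) : ℝ :=
  qF (V2 P.A z.1) (V2 P.B z.1) (z.2 0) (z.2 1)

theorem contDiff_HH (P : Pack) : ContDiff ℝ ∞ (HH P) := by
  have hS : ContDiff ℝ ∞ fun z : Ph => V2 P.S z.1 := (V2_contDiff P.contDiff_S).comp contDiff_fst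
  unfold HH qT
  fun_prop

theorem contDiff_FF (P : Pack) : ContDiff ℝ ∞ (FF P) := by
  have hA : ContDiff ℝ ∞ fun z : Ph => V2 P.A z.1 := (V2_contDiff P.contDiff_A).comp contDiff_fst
  have hB : ContDiff ℝ ∞ fun z : Ph => V2 P.B z.1 := (V2_contDiff P.contDiff_B).comp contDiff_fst
  unfold FF qF qT
  fun_prop

theorem vec_fst (x : Fin 2 → ℝ) (p : Fin 2 → ℝ) (k : Fin 2 → ℤ) :
    ((x, p) : Ph) + vec k = (x + fun i => (k i : ℝ), p) := by
  unfold vec; ext i <;> simp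

theorem S_per (P : Pack) (x : Fin 2 → ℝ) (k : Fin 2 → ℤ) :
    V2 P.S (x + fun i => (k i : ℝ)) = V2 P.S x := V2_per (P := P) (f := fun w => 1 + w.1) x k
theorem A_per (P : Pack) (x : Fin 2 → ℝ) (k : Fin 2 → ℤ) :
    V2 P.A (x + fun i => (k i : ℝ)) = V2 P.A x := V2_per (P := P) (f := fun w => w.2.1) x k
theorem B_per (P : Pack) (x : Fin 2 → ℝ) (k : Fin 2 → ℤ) :
    V2 P.B (x + fun i => (k i : ℝ)) = V2 P.B x := V2_per (P := P) (f := fun w => w.2.2) x k

theorem HH_per (P : Pack) (z : Ph) (k : Fin 2 → ℤ) : HH P (z + vec k) = HH P z := by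
  obtain ⟨x, p⟩ := z
  rw [vec_fst]
  unfold HH
  simp only
  rw [S_per]

theorem FF_per (P : Pack) (z : Ph) (k : Fin 2 → ℤ) : FF P (z + vec k) = FF P z := by
  obtain ⟨x, p⟩ := z
  rw [vec_fst]
  unfold FF
  simp only
  rw [A_per, B_per]

theorem hasDerivAt_p (p w : Fin 2 → ℝ) (i : Fin 2) :
    HasDerivAt (fun t : ℝ => (p + t • w) i) (w i) 0 := by
  simpa using ((hasDerivAt_id (0 : ℝ)).mul_const (w i)).const_add (p i)

theorem fderiv_HH (P : Pack) (x p v w : Fin 2 → ℝ) :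
    fderiv ℝ (HH P) (x, p) (v, w) =
      20 * fderiv ℝ P.S (U x) (v 0, v 1) * qT (p 0) (p 1) +
        V2 P.S x / 3 * ((2 * p 0 - p 1) * w 0 + (2 * p 1 - p 0) * w 1) := by
  have h1 := line ((contDiff_HH P).differentiable (by simp) (x, p)) (v, w)
  have dS : Differentiable ℝ P.S := P.contDiff_S.differentiable (by simp)
  have h2 := line ((V2_contDiff P.contDiff_S).differentiable (by simp) x) v
  rw [V2_fderiv dS] at h2
  have h3 := hasDerivAt_qT (hasDerivAt_p p w 0) (hasDerivAt_p p w 1)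
  have h4 : HasDerivAt (fun t : ℝ => HH P ((x, p) + t • (v, w))) _ 0 :=
    (h2.div_const 3).fun_mul h3
  have h5 := h1.unique h4
  rw [h5]
  simp only [zero_smul, add_zero]
  ring

theorem fderiv_FF (P : Pack) (x p v w : Fin 2 → ℝ) :
    fderiv ℝ (FF P) (x, p) (v, w) =
      Fp (V2 P.A x) (V2 P.B x) (p 0) (p 1) * w 0 + Fq (V2 P.A x) (V2 P.B x) (p 0) (p 1) * w 1 +
        qT (p 0) (p 1) * (p 0 * (60 * fderiv ℝ P.A (U x) (v 0, v 1)) +
          p 1 * (60 * fderiv ℝ P.B (U x) (v 0, v 1))) := by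
  have h1 := line ((contDiff_FF P).differentiable (by simp) (x, p)) (v, w)
  have dA : Differentiable ℝ P.A := P.contDiff_A.differentiable (by simp)
  have dB : Differentiable ℝ P.B := P.contDiff_B.differentiable (by simp)
  have h2 := line ((V2_contDiff P.contDiff_A).differentiable (by simp) x) v
  have h3 := line ((V2_contDiff P.contDiff_B).differentiable (by simp) x) v
  rw [V2_fderiv dA] at h2
  rw [V2_fderiv dB] at h3
  have h4 : HasDerivAt (fun t : ℝ => FF P ((x, p) + t • (v, w))) _ 0 :=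
    hasDerivAt_qF h2 h3 (hasDerivAt_p p w 0) (hasDerivAt_p p w 1)
  have h5 := h1.unique h4
  rw [h5]
  simp only [zero_smul, add_zero]

theorem Fp_euler (A B p q : ℝ) : p * Fp A B p q + q * Fq A B p q = 3 * qF A B p q := by
  unfold Fp Fq qF qT; ring

theorem Fp_jac (A B p q : ℝ) : Fp A B p q * (2 * q - p) - Fq A B p q * (2 * p - q) =
    qT p q * (A * (2 * q - p) - B * (2 * p - q)) - (p + q) * (2 * p - q) * (p - 2 * q) := by
  unfold Fp Fq qT; ring

theorem comm_HF (P : Pack) (z : Ph) : fderiv ℝ (HH P) z (ham (FF P) z) = 0 := by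
  obtain ⟨x, p⟩ := z
  have e : ham (FF P) (x, p) = ((ham (FF P) (x, p)).1, (ham (FF P) (x, p)).2) := rfl
  rw [e, fderiv_HH]
  have c0 : (ham (FF P) (x, p)).1 0 = Fp (V2 P.A x) (V2 P.B x) (p 0) (p 1) := by
    unfold ham
    rw [Jm_fst, fderiv_FF]
    have d0 : fderiv ℝ P.A (U x) ((0 : Fin 2 → ℝ) 0, (0 : Fin 2 → ℝ) 1) = 0 := map_zero _
    have d1 : fderiv ℝ P.B (U x) ((0 : Fin 2 → ℝ) 0, (0 : Fin 2 → ℝ) 1) = 0 := map_zero _
    rw [d0, d1]
    simp
  have c1 : (ham (FF P) (x, p)).1 1 = Fq (V2 P.A x) (V2 P.B x) (p 0) (p 1) := by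
    unfold ham
    rw [Jm_fst, fderiv_FF]
    have d0 : fderiv ℝ P.A (U x) ((0 : Fin 2 → ℝ) 0, (0 : Fin 2 → ℝ) 1) = 0 := map_zero _
    have d1 : fderiv ℝ P.B (U x) ((0 : Fin 2 → ℝ) 0, (0 : Fin 2 → ℝ) 1) = 0 := map_zero _
    rw [d0, d1]
    simp
  have c2 : (ham (FF P) (x, p)).2 0 = -(qT (p 0) (p 1) * (p 0 * (60 * fderiv ℝ P.A (U x) (1, 0)) +
          p 1 * (60 * fderiv ℝ P.B (U x) (1, 0)))) := by
    unfold ham
    rw [Jm_snd, fderiv_FF]
    simp
  have c3 : (ham (FF P) (x, p)).2 1 = -(qT (p 0) (p 1) * (p 0 * (60 * fderiv ℝ P.A (U x) (0, 1)) +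
          p 1 * (60 * fderiv ℝ P.B (U x) (0, 1)))) := by
    unfold ham
    rw [Jm_snd, fderiv_FF]
    simp
  rw [c0, c1, c2, c3, fderiv_dir P.S (U x)]
  simp only
  obtain ⟨h1, h2, h3⟩ := P.pde (U x)
  have eS : V2 P.S x = P.S (U x) := rfl
  have eA : V2 P.A x = P.A (U x) := rfl
  have eB : V2 P.B x = P.B (U x) := rfl
  rw [eS, eA, eB]
  unfold Fp Fq qT
  linear_combination (-(20 * (p 0 ^ 2 - p 0 * p 1 + p 1 ^ 2))) * ((p 0) ^ 2 * h1 + (p 0) * (p 1) * h3 +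
    (p 1) ^ 2 * h2)

theorem qT_ge (p q : ℝ) : 3 / 4 * p ^ 2 ≤ qT p q ∧ 3 / 4 * q ^ 2 ≤ qT p q := by
  unfold qT
  constructor
  · nlinarith [sq_nonneg (q - p / 2)]
  · nlinarith [sq_nonneg (p - q / 2)]

theorem proper_HH (P : Pack) (hP : Small P) (c : ℝ) : ∃ R, ∀ z, HH P z ≤ c → ‖z.2‖ ≤ R := by
  refine ⟨|c| + 3, fun z hz => ?_⟩
  obtain ⟨x, p⟩ := z
  have h0 := (hP (U x)).1
  have h1 := (abs_le.1 h0).1
  have h2 : 99 / 100 ≤ V2 P.S x := by
    have : V2 P.S x = P.S (U x) := rfl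
    rw [this]; linarith
  unfold HH at hz
  simp only at hz ⊢
  obtain ⟨h3, h4⟩ := qT_ge (p 0) (p 1)
  have h5 : 0 ≤ qT (p 0) (p 1) := (by positivity : (0 : ℝ) ≤ 3 / 4 * p 0 ^ 2).trans h3
  have h6 : 33 / 100 * qT (p 0) (p 1) ≤ c := by
    have := mul_le_mul_of_nonneg_right (show 33 / 100 ≤ V2 P.S x / 3 by linarith) h5
    linarith
  have h7 := le_abs_self c
  have h8 : ∀ q : ℝ, 3 / 4 * q ^ 2 ≤ qT (p 0) (p 1) → |q| ≤ |c| + 3 := by
    intro q hq
    refine abs_le_of_sq_le_sq ?_ (by positivity)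
    have h9 := sq_nonneg (|c|)
    nlinarith
  rw [pi_norm_le_iff_of_nonneg (by positivity)]
  intro i
  rw [Real.norm_eq_abs]
  fin_cases i
  · exact h8 _ h3
  · exact h8 _ h4

/-- the integrable system -/
noncomputable def isys (P : Pack) (hP : Small P) : IntSys where
  H := HH P
  F := FF P
  hH := contDiff_HH P
  hF := contDiff_FF P
  pH := HH_per P
  pF := FF_per P
  comm := comm_HF P
  proper := proper_HH P hP

theorem p_ne {p : Fin 2 → ℝ} (h : p ≠ 0) : p 0 ≠ 0 ∨ p 1 ≠ 0 := by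
  by_contra hc
  push Not at hc
  apply h
  funext i
  fin_cases i
  · exact hc.1
  · exact hc.2

theorem HH_pos {P : Pack} {z : Ph} (h : z.2 ≠ 0) : 0 < HH P z := by
  unfold HH
  have h1 : 0 < V2 P.S z.1 := P.S_pos _
  have h2 := qT_pos (p_ne h)
  positivity

theorem HH_zero {P : Pack} {z : Ph} (h : z.2 = 0) : HH P z = 0 := by
  unfold HH qT
  rw [h]; simp

/-- critical points of the energy-momentum map -/
theorem crit_of_not_reg {P : Pack} {hP : Small P} {z : Ph} (hz : z.2 ≠ 0)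
    (h : ¬ (isys P hP).Reg z) :
    ∃ u s, CritPt P u s ∧ FF P z ^ 2 / HH P z ^ 3 = 27 * val P u s := by
  obtain ⟨x, p⟩ := z
  simp only at hz
  unfold IntSys.Reg Indep at h
  push Not at h
  obtain ⟨a, b, hab, hne⟩ := h
  have hT := qT_pos (p_ne hz)
  have hS : 0 < P.S (U x) := P.S_pos _
  have eS : V2 P.S x = P.S (U x) := rfl
  have eA : V2 P.A x = P.A (U x) := rfl
  have eB : V2 P.B x = P.B (U x) := rfl
  have ev : ∀ v w : Fin 2 → ℝ, a * (20 * fderiv ℝ P.S (U x) (v 0, v 1) * qT (p 0) (p 1) +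
        P.S (U x) / 3 * ((2 * p 0 - p 1) * w 0 + (2 * p 1 - p 0) * w 1)) +
      b * (Fp (P.A (U x)) (P.B (U x)) (p 0) (p 1) * w 0 +
        Fq (P.A (U x)) (P.B (U x)) (p 0) (p 1) * w 1 +
        qT (p 0) (p 1) * (p 0 * (60 * fderiv ℝ P.A (U x) (v 0, v 1)) +
          p 1 * (60 * fderiv ℝ P.B (U x) (v 0, v 1)))) = 0 := by
    intro v w
    have h1 := congrArg (fun L : Ph →L[ℝ] ℝ => L (v, w)) hab
    simp only [add_apply, smul_apply, smul_eq_mul, zero_apply] at h1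
    have e1 : fderiv ℝ (isys P hP).H (x, p) (v, w) = _ := fderiv_HH P x p v w
    have e2 : fderiv ℝ (isys P hP).F (x, p) (v, w) = _ := fderiv_FF P x p v w
    rw [e1, e2, eS, eA, eB] at h1
    exact h1
  -- momentum directions
  have z1 : ∀ f : ℝ × ℝ → ℝ, fderiv ℝ f (U x) ((0 : Fin 2 → ℝ) 0, (0 : Fin 2 → ℝ) 1) = 0 :=
    fun f => map_zero _
  have m : ∀ w0 w1 : ℝ, a * (P.S (U x) / 3 * ((2 * p 0 - p 1) * w0 + (2 * p 1 - p 0) * w1)) +
      b * (Fp (P.A (U x)) (P.B (U x)) (p 0) (p 1) * w0 +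
        Fq (P.A (U x)) (P.B (U x)) (p 0) (p 1) * w1) = 0 := by
    intro w0 w1
    have := ev 0 ![w0, w1]
    rw [z1, z1, z1] at this
    simp at this
    linarith
  have eul := m (p 0) (p 1)
  have heu := Fp_euler (P.A (U x)) (P.B (U x)) (p 0) (p 1)
  have hE : a * (2 * P.S (U x) * qT (p 0) (p 1)) = -(9 * b * qF (P.A (U x)) (P.B (U x)) (p 0) (p 1)) := by
    have e3 : (2 * p 0 - p 1) * p 0 + (2 * p 1 - p 0) * p 1 = 2 * qT (p 0) (p 1) := by
      unfold qT; ring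
    rw [e3] at eul
    linear_combination 3 * eul - 3 * b * heu
  have hb : b ≠ 0 := by
    intro hb
    rw [hb] at hE
    have : a = 0 := by
      have h2 : a * (2 * P.S (U x) * qT (p 0) (p 1)) = 0 := by rw [hE]; ring
      exact (mul_eq_zero.1 h2).resolve_right (by positivity)
    exact hne this hb
  have hcr : Crit (P.A (U x)) (P.B (U x)) (p 0) (p 1) := by
    unfold Crit
    rw [← Fp_jac]
    have h3 := m (2 * p 1 - p 0) (-(2 * p 0 - p 1))
    have h4 : b * (Fp (P.A (U x)) (P.B (U x)) (p 0) (p 1) * (2 * p 1 - p 0) -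
        Fq (P.A (U x)) (P.B (U x)) (p 0) (p 1) * (2 * p 0 - p 1)) = 0 := by
      linear_combination h3
    exact (mul_eq_zero.1 h4).resolve_left hb
  have hp0 : p 0 ≠ 0 := crit_ne (hP (U x)).2.1 (hP (U x)).2.2 hcr (p_ne hz)
  obtain ⟨s, hs⟩ : ∃ s, s = p 1 / p 0 := ⟨_, rfl⟩
  have hp1 : p 1 = p 0 * s := by rw [hs]; field_simp
  have eT : qT (p 0) (p 1) = p 0 ^ 2 * qT 1 s := by rw [hp1]; unfold qT; ring
  have eF : ∀ A B : ℝ, qF A B (p 0) (p 1) = p 0 ^ 3 * qF A B 1 s := by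
    intro A B; unfold qF; rw [eT, hp1]; ring
  refine ⟨U x, s, ⟨?_, fun v => ?_⟩, ?_⟩
  · rw [hs]; exact crit_scale hp0 hcr
  · have h5 := ev ![v.1, v.2] 0
    simp only [Matrix.cons_val_zero, Matrix.cons_val_one, Pi.zero_apply, mul_zero,
      add_zero, zero_add] at h5
    have e6 : ((v.1, v.2) : ℝ × ℝ) = v := rfl
    rw [e6] at h5
    have h6 : qT (p 0) (p 1) * (a * fderiv ℝ P.S (U x) v + 3 * b * (p 0 * fderiv ℝ P.A (U x) v +
        p 1 * fderiv ℝ P.B (U x) v)) = 0 := by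
      linear_combination (1 / 20) * h5
    have h7 := (mul_eq_zero.1 h6).resolve_left hT.ne'
    have h8 : b * (3 * (2 * P.S (U x) * qT (p 0) (p 1) * (p 0 * fderiv ℝ P.A (U x) v +
        p 1 * fderiv ℝ P.B (U x) v) - 3 * qF (P.A (U x)) (P.B (U x)) (p 0) (p 1) *
        fderiv ℝ P.S (U x) v)) = 0 := by
      linear_combination (2 * P.S (U x) * qT (p 0) (p 1)) * h7 - fderiv ℝ P.S (U x) v * hE
    have h9 := (mul_eq_zero.1 h8).resolve_left hb
    rw [eT, eF, hp1] at h9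
    have h10 : p 0 ^ 3 * (2 * P.S (U x) * qT 1 s * (fderiv ℝ P.A (U x) v +
        s * fderiv ℝ P.B (U x) v) - 3 * qF (P.A (U x)) (P.B (U x)) 1 s *
        fderiv ℝ P.S (U x) v) = 0 := by
      linear_combination (1 / 3) * h9
    have h11 := (mul_eq_zero.1 h10).resolve_left (pow_ne_zero 3 hp0)
    linarith
  · unfold FF HH val
    simp only
    rw [eS, eA, eB, eF, eT]
    have := (qT_one_pos s).ne'
    field_simp
    ring

end Pool.Agent.TH309.LA
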