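import Pool.Agent.TH309.LA.Met

/-! The metric is not of Liouville type. -/

set_option autoImplicit false

open Set Filter Topology
open scoped ContDiff

namespace Pool.Agent.TH309.LA

open Pool.Agent.TH309.Tor

/-- the profile of the conformal factor in a strip is not affine -/
theorem profile (P : Pack) {β₁ β₂ : ℝ}
    (h : ∀ t, 8 < t → t < 12 → ∀ᶠ q : ℝ × ℝ in 𝓝 (0, 0),
      1 / (1 + P.tL (t + β₁ * q.1 + β₂ * q.2)) + 1 / (1 + P.tL t) =
        1 / (1 + P.tL (t + β₁ * q.1)) + 1 / (1 + P.tL (t + β₂ * q.2))) : β₁ * β₂ = 0 := by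
  by_contra hne
  have hβ₁ : β₁ ≠ 0 := left_ne_zero_of_mul hne
  have hβ₂ : β₂ ≠ 0 := right_ne_zero_of_mul hne
  set W : ℝ → ℝ := fun t => 1 / (1 + P.tL t) with hW
  have hWC : ContDiff ℝ ∞ W :=
    contDiff_const.div (contDiff_const.add P.hL) fun t => (P.pL t).ne'
  have hWd : Differentiable ℝ W := hWC.differentiable (by simp)
  have hW' : Differentiable ℝ (deriv W) := by
    have : ContDiff ℝ ∞ (deriv W) := (contDiff_infty_iff_deriv.1 hWC).2
    exact this.differentiable (by simp)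
  have hloc : ∀ t, 8 < t → t < 12 → ∀ᶠ η : ℝ in 𝓝 0, deriv W (t + β₂ * η) = deriv W t := by
    intro t ht1 ht2
    have h3 : ∀ᶠ q : ℝ × ℝ in 𝓝 (0, 0), W (t + β₁ * q.2 + β₂ * q.1) + W t =
        W (t + β₁ * q.2) + W (t + β₂ * q.1) := by
      have hsw : Tendsto (Prod.swap : ℝ × ℝ → ℝ × ℝ) (𝓝 (0, 0)) (𝓝 (0, 0)) :=
        continuous_swap.tendsto (0, 0)
      exact hsw.eventually (h t ht1 ht2)
    rw [nhds_prod_eq] at h3
    have h4 := h3.curry
    filter_upwards [h4] with η hη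
    have k1 : HasDerivAt (fun ξ : ℝ => W (t + β₁ * ξ + β₂ * η) - W (t + β₁ * ξ))
        (deriv W (t + β₂ * η) * β₁ - deriv W t * β₁) 0 := by
      have a1 : HasDerivAt (fun ξ : ℝ => t + β₁ * ξ + β₂ * η) β₁ 0 := by
        simpa using (((hasDerivAt_id (0 : ℝ)).const_mul β₁).const_add t).add_const (β₂ * η)
      have a2 : HasDerivAt (fun ξ : ℝ => t + β₁ * ξ) β₁ 0 := by
        simpa using ((hasDerivAt_id (0 : ℝ)).const_mul β₁).const_add t
      have b1 : HasDerivAt W (deriv W (t + β₂ * η)) (t + β₁ * 0 + β₂ * η) := by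
        rw [mul_zero, add_zero]; exact (hWd _).hasDerivAt
      have b2 : HasDerivAt W (deriv W t) (t + β₁ * 0) := by
        rw [mul_zero, add_zero]; exact (hWd _).hasDerivAt
      exact (b1.comp (0 : ℝ) a1).sub (b2.comp (0 : ℝ) a2)
    have k2 : HasDerivAt (fun ξ : ℝ => W (t + β₁ * ξ + β₂ * η) - W (t + β₁ * ξ)) 0 0 := by
      have : (fun ξ : ℝ => W (t + β₁ * ξ + β₂ * η) - W (t + β₁ * ξ)) =ᶠ[𝓝 0]
          fun _ => W (t + β₂ * η) - W t := by
        filter_upwards [hη] with ξ hξ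
        have hξ' : W (t + β₁ * ξ + β₂ * η) + W t = W (t + β₁ * ξ) + W (t + β₂ * η) := hξ
        linarith
      exact (hasDerivAt_const _ _).congr_of_eventuallyEq this
    have k3 := k1.unique k2
    have k4 : β₁ * (deriv W (t + β₂ * η) - deriv W t) = 0 := by linarith
    have := (mul_eq_zero.1 k4).resolve_left hβ₁
    linarith
  have hconst : ∀ t ∈ Ioo (8 : ℝ) 12, fderiv ℝ (deriv W) t = 0 := by
    intro t ht
    have h1 := hloc t ht.1 ht.2
    have h2 : deriv W =ᶠ[𝓝 t] fun _ => deriv W t := by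
      have hc : Tendsto (fun y : ℝ => (y - t) / β₂) (𝓝 t) (𝓝 0) := by
        have : Continuous fun y : ℝ => (y - t) / β₂ := by fun_prop
        have h3 := this.tendsto t
        simpa using h3
      filter_upwards [hc.eventually h1] with y hy
      have e : t + β₂ * ((y - t) / β₂) = y := by field_simp; ring
      rwa [e] at hy
    rw [h2.fderiv_eq]
    simp
  have hc2 : ∀ t ∈ Ioo (8 : ℝ) 12, deriv W t = deriv W (17 / 2) := by
    intro t ht
    exact isOpen_Ioo.is_const_of_fderiv_eq_zero (isPreconnected_Ioo) hW'.differentiableOn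
      (fun t ht => hconst t ht) ht ⟨by norm_num, by norm_num⟩
  have h0 : deriv W (17 / 2) = 0 := by
    have : W =ᶠ[𝓝 (17 / 2)] fun _ => 1 := by
      filter_upwards [Iio_mem_nhds (show (17 / 2 : ℝ) < 9 by norm_num)] with y hy
      simp only [hW]
      rw [P.zL y (Or.inl (le_of_lt hy))]
      norm_num
    rw [this.deriv_eq]
    simp
  have h1 := P.tL_slope (c := 1) fun y hy1 hy2 => by
    have e1 : deriv W y = 0 := by rw [hc2 y ⟨hy1, hy2⟩, h0]
    have hd : HasDerivAt P.tL (deriv P.tL y) y :=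
      (P.hL.differentiable (by simp) y).hasDerivAt
    have hp := P.pL y
    have k : HasDerivAt W _ y := (hasDerivAt_const y (1 : ℝ)).fun_div (hd.const_add 1) hp.ne'
    rw [k.deriv] at e1
    rw [div_eq_zero_iff] at e1
    rcases e1 with e | e
    · linarith
    · exact absurd e (by positivity)
  exact one_ne_zero h1

/-- rotation by sixty degrees -/
theorem rot60 {a b c d : ℝ} (h1 : a ^ 2 + b ^ 2 = c ^ 2 + d ^ 2)
    (h2 : a ^ 2 + b ^ 2 = 2 * (a * c + b * d)) (hD : 0 < a * d - b * c) :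
    c = a / 2 - Real.sqrt 3 / 2 * b ∧ d = Real.sqrt 3 / 2 * a + b / 2 := by
  have hs := sqrt3_pos
  have hss := sqrt3_sq
  obtain ⟨ρ, hρ⟩ : ∃ ρ, ρ = a ^ 2 + b ^ 2 := ⟨_, rfl⟩
  have hρ0 : 0 ≤ ρ := by rw [hρ]; positivity
  have hD2 : (a * d - b * c) ^ 2 = (Real.sqrt 3 / 2 * ρ) ^ 2 := by
    have e1 : (a * d - b * c) ^ 2 = (a ^ 2 + b ^ 2) * (c ^ 2 + d ^ 2) - (a * c + b * d) ^ 2 := by
      ring
    have e2 : a * c + b * d = ρ / 2 := by linarith
    rw [e1, ← h1, ← hρ, e2]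
    have e3 : (Real.sqrt 3 / 2 * ρ) ^ 2 = Real.sqrt 3 * Real.sqrt 3 * ρ ^ 2 / 4 := by ring
    rw [e3, hss]
    ring
  have hDe : a * d - b * c = Real.sqrt 3 / 2 * ρ := by
    have h3 := (sq_eq_sq_iff_eq_or_eq_neg.1 hD2)
    rcases h3 with h3 | h3
    · exact h3
    · exfalso
      have : 0 ≤ Real.sqrt 3 / 2 * ρ := by positivity
      linarith
  have hρ1 : 0 < ρ := by
    rcases hρ0.lt_or_eq with h | h
    · exact h
    · rw [← h, mul_zero] at hDe; exact absurd hDe hD.ne'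
  obtain ⟨r, hr⟩ : ∃ r, r = c - (a / 2 - Real.sqrt 3 / 2 * b) := ⟨_, rfl⟩
  obtain ⟨s, hs'⟩ : ∃ s, s = d - (Real.sqrt 3 / 2 * a + b / 2) := ⟨_, rfl⟩
  have k1 : a * r + b * s = 0 := by
    rw [hr, hs']
    linarith
  have k2 : a * s - b * r = 0 := by
    rw [hr, hs']
    have e : a * (d - (Real.sqrt 3 / 2 * a + b / 2)) - b * (c - (a / 2 - Real.sqrt 3 / 2 * b)) =
      (a * d - b * c) - Real.sqrt 3 / 2 * (a ^ 2 + b ^ 2) := by ring
    rw [e, hDe, ← hρ]; ring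
  have k3 : ρ * (r ^ 2 + s ^ 2) = 0 := by
    have e : ρ * (r ^ 2 + s ^ 2) = (a * r + b * s) ^ 2 + (a * s - b * r) ^ 2 := by
      rw [hρ]; ring
    rw [e, k1, k2]; ring
  have k4 := (mul_eq_zero.1 k3).resolve_left hρ1.ne'
  have k5 : r = 0 := by nlinarith [sq_nonneg r, sq_nonneg s]
  have k6 : s = 0 := by nlinarith [sq_nonneg r, sq_nonneg s]
  exact ⟨by linarith, by linarith⟩

theorem symm2 {p : ℝ × ℝ → ℝ} (hp : ContDiff ℝ ∞ p) (u v w : ℝ × ℝ) :
    fderiv ℝ (fun u => fderiv ℝ p u v) u w = fderiv ℝ (fun u => fderiv ℝ p u w) u v := by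
  have hd : DifferentiableAt ℝ (fderiv ℝ p) u :=
    (hp.fderiv_right (m := ∞) (by simp)).differentiable (by simp) u
  have h1 : fderiv ℝ (fun u => fderiv ℝ p u v) u w = fderiv ℝ (fderiv ℝ p) u w v := by
    rw [fderiv_clm_apply hd (differentiableAt_const v)]
    simp
  have h2 : fderiv ℝ (fun u => fderiv ℝ p u w) u v = fderiv ℝ (fderiv ℝ p) u v w := by
    rw [fderiv_clm_apply hd (differentiableAt_const w)]
    simp
  rw [h1, h2]
  refine (hp.contDiffAt.isSymmSndFDerivAt ?_).eq w v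
  rw [minSmoothness_of_isRCLikeNormedField]
  exact WithTop.coe_le_coe.2 le_top

def c60 (a b c d : ℝ) : Prop :=
  a ^ 2 + b ^ 2 = c ^ 2 + d ^ 2 ∧ a ^ 2 + b ^ 2 = 2 * (a * c + b * d) ∧ 0 < a * d - b * c

/-- Rigidity of conformal maps of the hexagonal plane with periodic differential. -/
theorem rigid {p q : ℝ × ℝ → ℝ} (hp : ContDiff ℝ ∞ p) (hq : ContDiff ℝ ∞ q)
    (p1 : ∀ (u v : ℝ × ℝ), fderiv ℝ p (u.1 + 1, u.2) v = fderiv ℝ p u v)
    (p2 : ∀ (u v : ℝ × ℝ), fderiv ℝ p (u.1, u.2 + 1) v = fderiv ℝ p u v)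
    (q1 : ∀ (u v : ℝ × ℝ), fderiv ℝ q (u.1 + 1, u.2) v = fderiv ℝ q u v)
    (q2 : ∀ (u v : ℝ × ℝ), fderiv ℝ q (u.1, u.2 + 1) v = fderiv ℝ q u v)
    (h : ∀ u, c60 (fderiv ℝ p u (1, 0)) (fderiv ℝ q u (1, 0)) (fderiv ℝ p u (0, 1))
      (fderiv ℝ q u (0, 1))) :
    ∀ u u' v, fderiv ℝ p u v = fderiv ℝ p u' v ∧ fderiv ℝ q u v = fderiv ℝ q u' v := by
  have hs := sqrt3_pos
  have hss := sqrt3_sq
  have dp : ∀ v, Differentiable ℝ fun u => fderiv ℝ p u v := fun v =>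
    ((hp.fderiv_right (m := ∞) (by simp)).clm_apply contDiff_const).differentiable (by simp)
  have dq : ∀ v, Differentiable ℝ fun u => fderiv ℝ q u v := fun v =>
    ((hq.fderiv_right (m := ∞) (by simp)).clm_apply contDiff_const).differentiable (by simp)
  have hr : ∀ u, fderiv ℝ p u (0, 1) = fderiv ℝ p u (1, 0) / 2 -
        Real.sqrt 3 / 2 * fderiv ℝ q u (1, 0) ∧
      fderiv ℝ q u (0, 1) = Real.sqrt 3 / 2 * fderiv ℝ p u (1, 0) + fderiv ℝ q u (1, 0) / 2 :=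
    fun u => rot60 (h u).1 (h u).2.1 (h u).2.2
  -- the two equations between second derivatives
  have E1 : ∀ u w, fderiv ℝ (fun u => fderiv ℝ p u (0, 1)) u w =
      fderiv ℝ (fun u => fderiv ℝ p u (1, 0)) u w / 2 -
        Real.sqrt 3 / 2 * fderiv ℝ (fun u => fderiv ℝ q u (1, 0)) u w := by
    intro u w
    have e : (fun u => fderiv ℝ p u (0, 1)) = fun u => fderiv ℝ p u (1, 0) / 2 -
        Real.sqrt 3 / 2 * fderiv ℝ q u (1, 0) := funext fun u => (hr u).1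
    rw [e]
    have k := (((dp (1, 0) u).hasFDerivAt.mul_const (1 / 2)).fun_sub
      ((dq (1, 0) u).hasFDerivAt.const_mul (Real.sqrt 3 / 2)))
    have e2 : (fun u => fderiv ℝ p u (1, 0) / 2 - Real.sqrt 3 / 2 * fderiv ℝ q u (1, 0)) =
      fun u => fderiv ℝ p u (1, 0) * (1 / 2) - Real.sqrt 3 / 2 * fderiv ℝ q u (1, 0) := by
      funext u; ring
    rw [e2, k.fderiv]
    simp
    ring
  have E2 : ∀ u w, fderiv ℝ (fun u => fderiv ℝ q u (0, 1)) u w =
      Real.sqrt 3 / 2 * fderiv ℝ (fun u => fderiv ℝ p u (1, 0)) u w +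
        fderiv ℝ (fun u => fderiv ℝ q u (1, 0)) u w / 2 := by
    intro u w
    have e : (fun u => fderiv ℝ q u (0, 1)) = fun u => Real.sqrt 3 / 2 * fderiv ℝ p u (1, 0) +
        fderiv ℝ q u (1, 0) / 2 := funext fun u => (hr u).2
    rw [e]
    have k := (((dp (1, 0) u).hasFDerivAt.const_mul (Real.sqrt 3 / 2)).fun_add
      ((dq (1, 0) u).hasFDerivAt.mul_const (1 / 2)))
    have e2 : (fun u => Real.sqrt 3 / 2 * fderiv ℝ p u (1, 0) + fderiv ℝ q u (1, 0) / 2) =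
      fun u => Real.sqrt 3 / 2 * fderiv ℝ p u (1, 0) + fderiv ℝ q u (1, 0) * (1 / 2) := by
      funext u; ring
    rw [e2, k.fderiv]
    simp
    ring
  have S1 := fun u => symm2 hp u (1, 0) (0, 1)
  have S2 := fun u => symm2 hq u (1, 0) (0, 1)
  set a : ℝ × ℝ → ℝ := fun u => fderiv ℝ p u (1, 0) with ha
  set b : ℝ × ℝ → ℝ := fun u => fderiv ℝ q u (1, 0) with hb
  have da : Differentiable ℝ a := dp (1, 0)
  have db : Differentiable ℝ b := dq (1, 0)
  have kX : ∀ u, HasFDerivAt (fun u => a u - b u * (1 / Real.sqrt 3))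
      (fderiv ℝ a u - (1 / Real.sqrt 3) • fderiv ℝ b u) u := fun u =>
    (da u).hasFDerivAt.fun_sub ((db u).hasFDerivAt.mul_const _)
  have kY : ∀ u, HasFDerivAt (fun u => b u * (2 / Real.sqrt 3))
      ((2 / Real.sqrt 3) • fderiv ℝ b u) u := fun u => (db u).hasFDerivAt.mul_const _
  have key := const_of_cr (X := fun u => a u - b u * (1 / Real.sqrt 3))
    (Y := fun u => b u * (2 / Real.sqrt 3))
    (fun u => (kX u).differentiableAt) (fun u => (kY u).differentiableAt)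
    (fun u => by simp only [ha, hb, p1, q1]) (fun u => by simp only [ha, hb, p2, q2])
    (fun u => by simp only [hb, q1]) (fun u => by simp only [hb, q2])
    (fun u => by
      rw [(kX u).fderiv, (kY u).fderiv]
      simp only [sub_apply, smul_apply, smul_eq_mul]
      rw [S1 u, S2 u, E1, E2]
      field_simp
      ring_nf
      rw [show Real.sqrt 3 ^ 2 = 3 by rw [sq]; exact hss]
      ring)
    (fun u => by
      rw [(kX u).fderiv, (kY u).fderiv]
      simp only [sub_apply, smul_apply, smul_eq_mul]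
      rw [S1 u, S2 u, E1, E2]
      field_simp
      ring_nf
      rw [show Real.sqrt 3 ^ 2 = 3 by rw [sq]; exact hss]
      ring)
  intro u u' v
  obtain ⟨k1, k2⟩ := key u u'
  have hbc : b u = b u' := by
    have h3 : (2 / Real.sqrt 3) ≠ 0 := by positivity
    exact mul_right_cancel₀ h3 k2
  have hac : a u = a u' := by
    simp only [hbc] at k1
    linarith
  rw [fderiv_dir p u v, fderiv_dir p u' v, fderiv_dir q u v, fderiv_dir q u' v, (hr u).1, (hr u').1,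
    (hr u).2, (hr u').2]
  have a1 : fderiv ℝ p u (1, 0) = fderiv ℝ p u' (1, 0) := hac
  have b1 : fderiv ℝ q u (1, 0) = fderiv ℝ q u' (1, 0) := hbc
  rw [a1, b1]
  exact ⟨rfl, rfl⟩

/-- the inclusion of coordinates -/
noncomputable def emb : (ℝ × ℝ) →L[ℝ] (Fin 2 → ℝ) :=
  ContinuousLinearMap.pi ![ContinuousLinearMap.fst ℝ ℝ ℝ, ContinuousLinearMap.snd ℝ ℝ ℝ]

theorem emb_0 (u : ℝ × ℝ) : emb u 0 = u.1 := rfl
theorem emb_1 (u : ℝ × ℝ) : emb u 1 = u.2 := rfl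

theorem comp_fderiv {φ : (Fin 2 → ℝ) → (Fin 2 → ℝ)} (hφ : Differentiable ℝ φ) (i : Fin 2)
    (u v : ℝ × ℝ) : fderiv ℝ (fun u => φ (emb u) i) u v = fderiv ℝ φ (emb u) (emb v) i := by
  have h1 : HasFDerivAt (fun u => φ (emb u)) ((fderiv ℝ φ (emb u)).comp emb) u :=
    (hφ (emb u)).hasFDerivAt.comp u emb.hasFDerivAt
  have h2 := (hasFDerivAt_pi'.1 h1) i
  rw [h2.fderiv]
  rfl

theorem affine {p : ℝ × ℝ → ℝ} (hp : Differentiable ℝ p)
    (h : ∀ u u' v, fderiv ℝ p u v = fderiv ℝ p u' v) (u v : ℝ × ℝ) :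
    p (u + v) = p u + fderiv ℝ p 0 v := by
  have hc : ∀ u, fderiv ℝ (fun u => p u - fderiv ℝ p 0 u) u = 0 := by
    intro u
    have k := (hp u).hasFDerivAt.fun_sub (fderiv ℝ p 0).hasFDerivAt
    rw [k.fderiv]
    ext
    all_goals
      simp only [sub_apply, zero_apply, ContinuousLinearMap.comp_apply]
      rw [h u 0]
      simp
  have hd : Differentiable ℝ (fun u => p u - fderiv ℝ p 0 u) := fun u =>
    ((hp u).hasFDerivAt.fun_sub (fderiv ℝ p 0).hasFDerivAt).differentiableAt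
  have h1 := is_const_of_fderiv_eq_zero hd hc (u + v) u
  simp only [map_add] at h1
  linarith

theorem S_strip1 (P : Pack) {x y : ℝ} (h1 : |x| < 5) (h2 : 8 < y) (h3 : y < 12) :
    P.S (x, y) = 1 + P.tL y := by
  unfold Pack.S
  rw [P.val1 (x, y) h1 h2 h3]
  rfl

theorem S_strip2 (P : Pack) {x y : ℝ} (h1 : |y| < 5) (h2 : 8 < x) (h3 : x < 12) :
    P.S (x, y) = 1 + P.tL x := by
  unfold Pack.S
  rw [P.val2 (x, y) h1 h2 h3]
  rfl

/-- **the metric is not of Liouville type** -/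
theorem not_liouville (P : Pack) {φ : (Fin 2 → ℝ) → (Fin 2 → ℝ)}
    {B : Matrix (Fin 2) (Fin 2) ℝ} {f₁ f₂ : ℝ → ℝ} (hφ : ContDiff ℝ ∞ φ)
    (hB : ∀ (x : Fin 2 → ℝ) (k : Fin 2 → ℤ), φ (x + fun i => (k i : ℝ)) =
      φ x + B.mulVec fun i => (k i : ℝ))
    (hpos : ∀ x, 0 < f₁ (φ x 0) + f₂ (φ x 1))
    (hiso : ∀ x v w : Fin 2 → ℝ,
      (2 * v 0 * w 0 + v 0 * w 1 + v 1 * w 0 + 2 * v 1 * w 1) / V2 P.S x =
      (f₁ (φ x 0) + f₂ (φ x 1)) * (fderiv ℝ φ x v 0 * fderiv ℝ φ x w 0 +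
        fderiv ℝ φ x v 1 * fderiv ℝ φ x w 1)) : False := by
  have hφd : Differentiable ℝ φ := hφ.differentiable (by simp)
  set p : ℝ × ℝ → ℝ := fun u => φ (emb u) 0 with hp
  set q : ℝ × ℝ → ℝ := fun u => φ (emb u) 1 with hq
  have cp : ContDiff ℝ ∞ p := (contDiff_pi.1 (hφ.comp emb.contDiff)) 0
  have cq : ContDiff ℝ ∞ q := (contDiff_pi.1 (hφ.comp emb.contDiff)) 1
  have fp : ∀ u v, fderiv ℝ p u v = fderiv ℝ φ (emb u) (emb v) 0 := comp_fderiv hφd 0
  have fq : ∀ u v, fderiv ℝ q u v = fderiv ℝ φ (emb u) (emb v) 1 := comp_fderiv hφd 1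
  set lm : ℝ × ℝ → ℝ := fun u => f₁ (p u) + f₂ (q u) with hlm
  have lmpos : ∀ u, 0 < lm u := fun u => hpos (emb u)
  have Spos : ∀ u : ℝ × ℝ, 0 < P.S (60 * u.1, 60 * u.2) := fun u => P.S_pos _
  have iso : ∀ u v w : ℝ × ℝ,
      (2 * v.1 * w.1 + v.1 * w.2 + v.2 * w.1 + 2 * v.2 * w.2) / P.S (60 * u.1, 60 * u.2) =
      lm u * (fderiv ℝ p u v * fderiv ℝ p u w + fderiv ℝ q u v * fderiv ℝ q u w) := by
    intro u v w
    rw [fp, fq, fp, fq]
    exact hiso (emb u) (emb v) (emb w)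
  -- the conformal relations
  have rel : ∀ u, fderiv ℝ p u (1, 0) ^ 2 + fderiv ℝ q u (1, 0) ^ 2 =
      2 / (lm u * P.S (60 * u.1, 60 * u.2)) ∧
      fderiv ℝ p u (0, 1) ^ 2 + fderiv ℝ q u (0, 1) ^ 2 =
      2 / (lm u * P.S (60 * u.1, 60 * u.2)) ∧
      2 * (fderiv ℝ p u (1, 0) * fderiv ℝ p u (0, 1) + fderiv ℝ q u (1, 0) * fderiv ℝ q u (0, 1)) =
      2 / (lm u * P.S (60 * u.1, 60 * u.2)) := by
    intro u
    have i1 := iso u (1, 0) (1, 0)
    have i2 := iso u (0, 1) (0, 1)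
    have i3 := iso u (1, 0) (0, 1)
    have l := lmpos u
    have s := Spos u
    simp only [mul_one, mul_zero, add_zero, zero_add] at i1 i2 i3
    rw [div_eq_iff s.ne'] at i1 i2 i3
    refine ⟨?_, ?_, ?_⟩ <;> rw [eq_div_iff (by positivity)] <;> linarith
  have D0 : ∀ u, fderiv ℝ p u (1, 0) * fderiv ℝ q u (0, 1) -
      fderiv ℝ q u (1, 0) * fderiv ℝ p u (0, 1) ≠ 0 := by
    intro u hD
    obtain ⟨r1, r2, r3⟩ := rel u
    have l := lmpos u
    have s := Spos u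
    obtain ⟨ρ, hρ⟩ : ∃ ρ, ρ = 2 / (lm u * P.S (60 * u.1, 60 * u.2)) := ⟨_, rfl⟩
    have hρ0 : 0 < ρ := by rw [hρ]; positivity
    rw [← hρ] at r1 r2 r3
    have e : (fderiv ℝ p u (1, 0) * fderiv ℝ q u (0, 1) -
      fderiv ℝ q u (1, 0) * fderiv ℝ p u (0, 1)) ^ 2 = ρ * ρ - (ρ / 2) ^ 2 := by
      have e1 : ρ / 2 = fderiv ℝ p u (1, 0) * fderiv ℝ p u (0, 1) +
        fderiv ℝ q u (1, 0) * fderiv ℝ q u (0, 1) := by linarith
      rw [e1]
      nth_rw 1 [← r1]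
      rw [← r2]
      ring
    rw [hD] at e
    nlinarith
  have Dc : Continuous fun u => fderiv ℝ p u (1, 0) * fderiv ℝ q u (0, 1) -
      fderiv ℝ q u (1, 0) * fderiv ℝ p u (0, 1) := by
    have a1 : ∀ v, Continuous fun u => fderiv ℝ p u v := fun v =>
      (cp.continuous_fderiv (by simp)).clm_apply continuous_const
    have a2 : ∀ v, Continuous fun u => fderiv ℝ q u v := fun v =>
      (cq.continuous_fderiv (by simp)).clm_apply continuous_const
    exact ((a1 _).mul (a2 _)).sub ((a2 _).mul (a1 _))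
  have per : ∀ (f : ℝ × ℝ → ℝ) (c : ℝ) (w : ℝ × ℝ), (∀ u, f (u + w) = f u + c) →
      ∀ u v, fderiv ℝ f (u + w) v = fderiv ℝ f u v := by
    intro f c w hf u v
    have h1 : fderiv ℝ (fun u => f (u + w)) u = fderiv ℝ f (u + w) := fderiv_comp_add_right w
    rw [← h1]
    have h2 : (fun u => f (u + w)) = fun u => f u + c := funext hf
    rw [h2, fderiv_add_const]
  have emb1 : ∀ u : ℝ × ℝ, emb (u + (1, 0)) = emb u + fun i => ((![1, 0] : Fin 2 → ℤ) i : ℝ) := by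
    intro u
    funext i
    fin_cases i <;> simp [emb]
  have emb2 : ∀ u : ℝ × ℝ, emb (u + (0, 1)) = emb u + fun i => ((![0, 1] : Fin 2 → ℤ) i : ℝ) := by
    intro u
    funext i
    fin_cases i <;> simp [emb]
  have pp1 := per p (B.mulVec (fun i => ((![1, 0] : Fin 2 → ℤ) i : ℝ)) 0) (1, 0) fun u => by
    simp only [hp]; rw [emb1, hB]; rfl
  have pp2 := per p (B.mulVec (fun i => ((![0, 1] : Fin 2 → ℤ) i : ℝ)) 0) (0, 1) fun u => by
    simp only [hp]; rw [emb2, hB]; rfl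
  have qq1 := per q (B.mulVec (fun i => ((![1, 0] : Fin 2 → ℤ) i : ℝ)) 1) (1, 0) fun u => by
    simp only [hq]; rw [emb1, hB]; rfl
  have qq2 := per q (B.mulVec (fun i => ((![0, 1] : Fin 2 → ℤ) i : ℝ)) 1) (0, 1) fun u => by
    simp only [hq]; rw [emb2, hB]; rfl
  have s1 : ∀ u : ℝ × ℝ, (u.1 + 1, u.2) = u + ((1, 0) : ℝ × ℝ) := by
    intro u; ext <;> simp
  have s2 : ∀ u : ℝ × ℝ, (u.1, u.2 + 1) = u + ((0, 1) : ℝ × ℝ) := by
    intro u; ext <;> simp
  -- constancy of the differential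
  have cst : ∀ u u' v, fderiv ℝ p u v = fderiv ℝ p u' v ∧ fderiv ℝ q u v = fderiv ℝ q u' v := by
    by_cases hsg : 0 < fderiv ℝ p 0 (1, 0) * fderiv ℝ q 0 (0, 1) -
        fderiv ℝ q 0 (1, 0) * fderiv ℝ p 0 (0, 1)
    · refine rigid cp cq (fun u v => by rw [s1, pp1]) (fun u v => by rw [s2, pp2])
        (fun u v => by rw [s1, qq1]) (fun u v => by rw [s2, qq2]) fun u => ⟨?_, ?_, ?_⟩
      · rw [(rel u).1, (rel u).2.1]
      · rw [(rel u).1, (rel u).2.2]
      · by_contra hc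
        obtain ⟨u', -, hu'⟩ := isPreconnected_univ.intermediate_value (mem_univ u)
          (mem_univ (0 : ℝ × ℝ)) Dc.continuousOn (show (0 : ℝ) ∈ Icc _ _ from ⟨not_lt.1 hc, hsg.le⟩)
        exact D0 u' hu'
    · have hsg' := lt_of_le_of_ne (not_lt.1 hsg) (D0 0)
      have nq : ∀ u v, fderiv ℝ (fun u => -q u) u v = -fderiv ℝ q u v := by
        intro u v
        rw [fderiv_fun_neg]; rfl
      have h1 := rigid (p := p) (q := fun u => -q u) cp cq.neg (fun u v => by rw [s1, pp1])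
        (fun u v => by rw [s2, pp2])
        (fun u v => by rw [nq, nq, s1, qq1]) (fun u v => by rw [nq, nq, s2, qq2])
        fun u => by
        rw [nq, nq]
        refine ⟨?_, ?_, ?_⟩
        · rw [neg_sq, neg_sq, (rel u).1, (rel u).2.1]
        · rw [neg_sq, neg_mul_neg, (rel u).1, (rel u).2.2]
        · by_contra hc
          have hc' : 0 ≤ fderiv ℝ p u (1, 0) * fderiv ℝ q u (0, 1) -
            fderiv ℝ q u (1, 0) * fderiv ℝ p u (0, 1) := by linarith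
          obtain ⟨u', -, hu'⟩ := isPreconnected_univ.intermediate_value (mem_univ (0 : ℝ × ℝ))
            (mem_univ u) Dc.continuousOn (show (0 : ℝ) ∈ Icc _ _ from ⟨hsg'.le, hc'⟩)
          exact D0 u' hu'
      intro u u' v
      obtain ⟨k1, k2⟩ := h1 u u' v
      rw [nq, nq] at k2
      exact ⟨k1, neg_injective k2⟩
  have afp := affine (cp.differentiable (by simp)) fun u u' v => (cst u u' v).1
  have afq := affine (cq.differentiable (by simp)) fun u u' v => (cst u u' v).2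
  obtain ⟨a, ha⟩ : ∃ a, a = fderiv ℝ p 0 (1, 0) := ⟨_, rfl⟩
  obtain ⟨b, hb⟩ : ∃ b, b = fderiv ℝ q 0 (1, 0) := ⟨_, rfl⟩
  obtain ⟨c, hc⟩ : ∃ c, c = fderiv ℝ p 0 (0, 1) := ⟨_, rfl⟩
  obtain ⟨d, hd⟩ : ∃ d, d = fderiv ℝ q 0 (0, 1) := ⟨_, rfl⟩
  have hD := D0 0
  rw [← ha, ← hb, ← hc, ← hd] at hD
  obtain ⟨r1, r2, r3⟩ := rel 0
  obtain ⟨ρ, hρ⟩ : ∃ ρ, ρ = a ^ 2 + b ^ 2 := ⟨_, rfl⟩
  have hρ0 : 0 < ρ := by
    rw [hρ, ha, hb, r1]
    have l := lmpos 0
    have s := Spos 0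
    positivity
  have e2 : c ^ 2 + d ^ 2 = ρ := by rw [hρ, ha, hb, hc, hd, r1, r2]
  have e3 : 2 * (a * c + b * d) = ρ := by rw [hρ, ha, hb, hc, hd, r1, r3]
  -- the conformal factor
  have cf : ∀ u : ℝ × ℝ, 1 / P.S (60 * u.1, 60 * u.2) = lm u * (ρ / 2) := by
    intro u
    have h1 := (rel u).1
    rw [(cst u 0 (1, 0)).1, (cst u 0 (1, 0)).2, ← ha, ← hb, ← hρ] at h1
    rw [h1]
    have l := lmpos u
    have s := Spos u
    field_simp
  obtain ⟨D, hDD⟩ : ∃ D, D = a * d - b * c := ⟨_, rfl⟩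
  rw [← hDD] at hD
  have lp : ∀ v : ℝ × ℝ, fderiv ℝ p 0 v = a * v.1 + c * v.2 := by
    intro v; rw [fderiv_dir, ← ha, ← hc]; ring
  have lq : ∀ v : ℝ × ℝ, fderiv ℝ q 0 v = b * v.1 + d * v.2 := by
    intro v; rw [fderiv_dir, ← hb, ← hd]; ring
  have para : ∀ (u : ℝ × ℝ) (ξ η : ℝ),
      1 / P.S (60 * (u.1 + (ξ * d - η * c) / D), 60 * (u.2 + (-ξ * b + η * a) / D)) +
        1 / P.S (60 * u.1, 60 * u.2) =
      1 / P.S (60 * (u.1 + ξ * d / D), 60 * (u.2 + -ξ * b / D)) +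
        1 / P.S (60 * (u.1 + -η * c / D), 60 * (u.2 + η * a / D)) := by
    intro u ξ η
    have c1 := cf (u + ((ξ * d - η * c) / D, (-ξ * b + η * a) / D))
    have c2 := cf u
    have c3 := cf (u + (ξ * d / D, -ξ * b / D))
    have c4 := cf (u + (-η * c / D, η * a / D))
    simp only [hlm] at c1 c2 c3 c4
    rw [afp, afq, lp, lq] at c1 c3 c4
    have m1 : a * ((ξ * d - η * c) / D, (-ξ * b + η * a) / D).1 +
        c * ((ξ * d - η * c) / D, (-ξ * b + η * a) / D).2 = ξ := by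
      simp only; rw [← mul_div_assoc, ← mul_div_assoc, ← add_div, div_eq_iff hD, hDD]; ring
    have m2 : b * ((ξ * d - η * c) / D, (-ξ * b + η * a) / D).1 +
        d * ((ξ * d - η * c) / D, (-ξ * b + η * a) / D).2 = η := by
      simp only; rw [← mul_div_assoc, ← mul_div_assoc, ← add_div, div_eq_iff hD, hDD]; ring
    have m3 : a * (ξ * d / D, -ξ * b / D).1 + c * (ξ * d / D, -ξ * b / D).2 = ξ := by
      simp only; rw [← mul_div_assoc, ← mul_div_assoc, ← add_div, div_eq_iff hD, hDD]; ring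
    have m4 : b * (ξ * d / D, -ξ * b / D).1 + d * (ξ * d / D, -ξ * b / D).2 = 0 := by
      simp only; rw [← mul_div_assoc, ← mul_div_assoc, ← add_div, div_eq_iff hD, hDD]; ring
    have m5 : a * (-η * c / D, η * a / D).1 + c * (-η * c / D, η * a / D).2 = 0 := by
      simp only; rw [← mul_div_assoc, ← mul_div_assoc, ← add_div, div_eq_iff hD, hDD]; ring
    have m6 : b * (-η * c / D, η * a / D).1 + d * (-η * c / D, η * a / D).2 = η := by
      simp only; rw [← mul_div_assoc, ← mul_div_assoc, ← add_div, div_eq_iff hD, hDD]; ring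
    rw [m1, m2] at c1
    rw [m3, m4] at c3
    rw [m5, m6] at c4
    simp only [Prod.fst_add, Prod.snd_add, add_zero] at c1 c3 c4
    rw [c1, c2, c3, c4]
    ring
  -- the first strip
  have z1 : (60 * (-b / D)) * (60 * (a / D)) = 0 := by
    refine profile P fun t ht1 ht2 => ?_
    have cx : Tendsto (fun w : ℝ × ℝ => 60 * ((w.1 * d - w.2 * c) / D)) (𝓝 (0, 0)) (𝓝 0) := by
      have : Continuous fun w : ℝ × ℝ => 60 * ((w.1 * d - w.2 * c) / D) := by fun_prop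
      simpa using this.tendsto (0, 0)
    have cx1 : Tendsto (fun w : ℝ × ℝ => 60 * (w.1 * d / D)) (𝓝 (0, 0)) (𝓝 0) := by
      have : Continuous fun w : ℝ × ℝ => 60 * (w.1 * d / D) := by fun_prop
      simpa using this.tendsto (0, 0)
    have cx2 : Tendsto (fun w : ℝ × ℝ => 60 * (-w.2 * c / D)) (𝓝 (0, 0)) (𝓝 0) := by
      have : Continuous fun w : ℝ × ℝ => 60 * (-w.2 * c / D) := by fun_prop
      simpa using this.tendsto (0, 0)
    have cy : Tendsto (fun w : ℝ × ℝ => t + 60 * (-b / D) * w.1 + 60 * (a / D) * w.2)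
        (𝓝 (0, 0)) (𝓝 t) := by
      have : Continuous fun w : ℝ × ℝ => t + 60 * (-b / D) * w.1 + 60 * (a / D) * w.2 := by
        fun_prop
      simpa using this.tendsto (0, 0)
    have cy1 : Tendsto (fun w : ℝ × ℝ => t + 60 * (-b / D) * w.1) (𝓝 (0, 0)) (𝓝 t) := by
      have : Continuous fun w : ℝ × ℝ => t + 60 * (-b / D) * w.1 := by fun_prop
      simpa using this.tendsto (0, 0)
    have cy2 : Tendsto (fun w : ℝ × ℝ => t + 60 * (a / D) * w.2) (𝓝 (0, 0)) (𝓝 t) := by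
      have : Continuous fun w : ℝ × ℝ => t + 60 * (a / D) * w.2 := by fun_prop
      simpa using this.tendsto (0, 0)
    have I5 : Ioo (-5 : ℝ) 5 ∈ 𝓝 (0 : ℝ) := Ioo_mem_nhds (by norm_num) (by norm_num)
    have It : Ioo (8 : ℝ) 12 ∈ 𝓝 t := Ioo_mem_nhds ht1 ht2
    filter_upwards [cx I5, cx1 I5, cx2 I5, cy It, cy1 It, cy2 It] with w k1 k2 k3 k4 k5 k6
    simp only [mem_preimage, mem_Ioo] at k1 k2 k3 k4 k5 k6
    rw [← S_strip1 P (abs_lt.2 k1) k4.1 k4.2, ← S_strip1 P (x := 0) (by norm_num) ht1 ht2,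
      ← S_strip1 P (abs_lt.2 k2) k5.1 k5.2, ← S_strip1 P (abs_lt.2 k3) k6.1 k6.2]
    have h1 := para (0, t / 60) w.1 w.2
    have q1 : 60 * (t / 60 + (-w.1 * b + w.2 * a) / D) =
        t + 60 * (-b / D) * w.1 + 60 * (a / D) * w.2 := by ring
    have q2 : 60 * (t / 60 + -w.1 * b / D) = t + 60 * (-b / D) * w.1 := by ring
    have q3 : 60 * (t / 60 + w.2 * a / D) = t + 60 * (a / D) * w.2 := by ring
    have q4 : 60 * (t / 60) = t := by ring
    simp only [zero_add, mul_zero] at h1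
    rw [q1, q2, q3, q4] at h1
    exact h1
  have z2 : (60 * (d / D)) * (60 * (-c / D)) = 0 := by
    refine profile P fun t ht1 ht2 => ?_
    have cx : Tendsto (fun w : ℝ × ℝ => 60 * ((-w.1 * b + w.2 * a) / D)) (𝓝 (0, 0)) (𝓝 0) := by
      have : Continuous fun w : ℝ × ℝ => 60 * ((-w.1 * b + w.2 * a) / D) := by fun_prop
      simpa using this.tendsto (0, 0)
    have cx1 : Tendsto (fun w : ℝ × ℝ => 60 * (-w.1 * b / D)) (𝓝 (0, 0)) (𝓝 0) := by
      have : Continuous fun w : ℝ × ℝ => 60 * (-w.1 * b / D) := by fun_prop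
      simpa using this.tendsto (0, 0)
    have cx2 : Tendsto (fun w : ℝ × ℝ => 60 * (w.2 * a / D)) (𝓝 (0, 0)) (𝓝 0) := by
      have : Continuous fun w : ℝ × ℝ => 60 * (w.2 * a / D) := by fun_prop
      simpa using this.tendsto (0, 0)
    have cy : Tendsto (fun w : ℝ × ℝ => t + 60 * (d / D) * w.1 + 60 * (-c / D) * w.2)
        (𝓝 (0, 0)) (𝓝 t) := by
      have : Continuous fun w : ℝ × ℝ => t + 60 * (d / D) * w.1 + 60 * (-c / D) * w.2 := by
        fun_prop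
      simpa using this.tendsto (0, 0)
    have cy1 : Tendsto (fun w : ℝ × ℝ => t + 60 * (d / D) * w.1) (𝓝 (0, 0)) (𝓝 t) := by
      have : Continuous fun w : ℝ × ℝ => t + 60 * (d / D) * w.1 := by fun_prop
      simpa using this.tendsto (0, 0)
    have cy2 : Tendsto (fun w : ℝ × ℝ => t + 60 * (-c / D) * w.2) (𝓝 (0, 0)) (𝓝 t) := by
      have : Continuous fun w : ℝ × ℝ => t + 60 * (-c / D) * w.2 := by fun_prop
      simpa using this.tendsto (0, 0)
    have I5 : Ioo (-5 : ℝ) 5 ∈ 𝓝 (0 : ℝ) := Ioo_mem_nhds (by norm_num) (by norm_num)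
    have It : Ioo (8 : ℝ) 12 ∈ 𝓝 t := Ioo_mem_nhds ht1 ht2
    filter_upwards [cx I5, cx1 I5, cx2 I5, cy It, cy1 It, cy2 It] with w k1 k2 k3 k4 k5 k6
    simp only [mem_preimage, mem_Ioo] at k1 k2 k3 k4 k5 k6
    rw [← S_strip2 P (abs_lt.2 k1) k4.1 k4.2, ← S_strip2 P (y := 0) (by norm_num) ht1 ht2,
      ← S_strip2 P (abs_lt.2 k2) k5.1 k5.2, ← S_strip2 P (abs_lt.2 k3) k6.1 k6.2]
    have h1 := para (t / 60, 0) w.1 w.2
    have q1 : 60 * (t / 60 + (w.1 * d - w.2 * c) / D) =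
        t + 60 * (d / D) * w.1 + 60 * (-c / D) * w.2 := by ring
    have q2 : 60 * (t / 60 + w.1 * d / D) = t + 60 * (d / D) * w.1 := by ring
    have q3 : 60 * (t / 60 + -w.2 * c / D) = t + 60 * (-c / D) * w.2 := by ring
    have q4 : 60 * (t / 60) = t := by ring
    simp only [zero_add, mul_zero] at h1
    rw [q1, q2, q3, q4] at h1
    exact h1
  have ab : a * b = 0 := by
    field_simp at z1
    linarith
  have cd : c * d = 0 := by
    field_simp at z2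
    linarith
  rcases mul_eq_zero.1 ab with h | h <;> rcases mul_eq_zero.1 cd with h' | h'
  · rw [h] at hρ e3
    rw [h'] at e2 e3
    have e4 : (2 * (b * d)) ^ 2 = 4 * (b ^ 2) * (d ^ 2) := by ring
    have e5 : b ^ 2 = ρ := by linarith
    have e6 : d ^ 2 = ρ := by linarith
    have e7 : 2 * (b * d) = ρ := by linarith
    rw [e5, e6, e7] at e4
    nlinarith
  · rw [h, h'] at e3
    linarith
  · rw [h, h'] at e3
    linarith
  · rw [h] at hρ e3
    rw [h'] at e2 e3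
    have e4 : (2 * (a * c)) ^ 2 = 4 * (a ^ 2) * (c ^ 2) := by ring
    have e5 : a ^ 2 = ρ := by linarith
    have e6 : c ^ 2 = ρ := by linarith
    have e7 : 2 * (a * c) = ρ := by linarith
    rw [e5, e6, e7] at e4
    nlinarith

end Pool.Agent.TH309.LA
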